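import Pool.Agent.H683.CV.Lem

/-!
# Budgeted graph coloring: a coloring implies that no constraint is violated
-/

set_option autoImplicit false

namespace Pool.Agent.H32.CVE1

open Pool.Agent.NPC Pool.Agent.H633R2 Pool.Agent.H683.CV

theorem mem_vs {M : List (List Bool)} {S : List ℕ} {v : ℕ} :
    v ∈ vs M S ↔ v < M.length ∧ v ∉ S := by
  unfold vs nin
  rw [List.mem_filter, List.mem_range]
  simp only [List.all_eq_true, Bool.not_eq_true', decide_eq_false_iff_not]
  constructor
  · rintro ⟨h1, h2⟩
    exact ⟨h1, fun h => h2 v h rfl⟩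
  · rintro ⟨h1, h2⟩
    exact ⟨h1, fun s hs he => h2 (he ▸ hs)⟩

theorem adj_comm (M : List (List Bool)) (u v : ℕ) : adj M u v = adj M v u := by
  unfold adj
  rw [Bool.or_comm]
  congr 1
  exact decide_eq_decide.2 ne_comm

theorem adj_ne {M : List (List Bool)} {u v : ℕ} (h : adj M u v = true) : u ≠ v := by
  unfold adj at h
  rw [Bool.and_eq_true] at h
  exact of_decide_eq_true h.1

/-- same clique -/
def E (M : List (List Bool)) (u v : ℕ) : Prop := v = u ∨ adj M u v = true

theorem E_symm {M : List (List Bool)} {u v : ℕ} (h : E M u v) : E M v u := by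
  rcases h with h | h
  · exact Or.inl h.symm
  · exact Or.inr (by rw [adj_comm]; exact h)

theorem E_trans {M : List (List Bool)} {S : List ℕ} (hG : GoodS M S) {a b c : ℕ}
    (ha : a ∈ vs M S) (hb : b ∈ vs M S) (hc : c ∈ vs M S) (h1 : E M a b) (h2 : E M b c) :
    E M a c := by
  rcases h1 with h1 | h1
  · subst h1; exact h2
  · rcases h2 with h2 | h2
    · subst h2; exact Or.inr h1
    · by_cases hac : a = c
      · exact Or.inl hac.symm
      · exact Or.inr (hG.2.2 a (mem_vs.1 ha).1 b (mem_vs.1 hb).1 c (mem_vs.1 hc).1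
          (mem_vs.1 ha).2 (mem_vs.1 hb).2 (mem_vs.1 hc).2 h1 h2 hac)

theorem mem_clq {M : List (List Bool)} {S : List ℕ} {r v : ℕ} :
    v ∈ clq M S r ↔ v ∈ vs M S ∧ E M r v := by
  unfold clq E
  rw [List.mem_filter, Bool.or_eq_true, decide_eq_true_iff]

theorem mem_reps {M : List (List Bool)} {S : List ℕ} {v : ℕ} :
    v ∈ reps M S ↔ v ∈ vs M S ∧ ∀ u ∈ vs M S, adj M u v = true → ¬ u < v := by
  unfold reps
  rw [List.mem_filter, List.all_eq_true]
  refine and_congr_right fun _ => forall_congr' fun u => forall_congr' fun _ => ?_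
  rw [Bool.not_eq_true', Bool.and_eq_false_iff, decide_eq_false_iff_not]
  constructor
  · rintro (h | h) h2
    · rw [h] at h2; exact absurd h2 (by decide)
    · exact h
  · intro h
    by_cases h2 : adj M u v = true
    · exact Or.inr (h h2)
    · exact Or.inl (by simpa using h2)

theorem vs_nodup (M : List (List Bool)) (S : List ℕ) : (vs M S).Nodup :=
  List.nodup_range.filter _

theorem clq_nodup (M : List (List Bool)) (S : List ℕ) (r : ℕ) : (clq M S r).Nodup :=
  (vs_nodup M S).filter _

theorem reps_nodup (M : List (List Bool)) (S : List ℕ) : (reps M S).Nodup :=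
  (vs_nodup M S).filter _

theorem ex_rep {M : List (List Bool)} {S : List ℕ} (hG : GoodS M S) {v : ℕ} (hv : v ∈ vs M S) :
    ∃ r ∈ reps M S, E M r v := by
  classical
  have hex : ∃ u, u ∈ vs M S ∧ E M u v := ⟨v, hv, Or.inl rfl⟩
  refine ⟨Nat.find hex, ?_, (Nat.find_spec hex).2⟩
  rw [mem_reps]
  refine ⟨(Nat.find_spec hex).1, fun u hu h hlt => ?_⟩
  exact Nat.find_min hex hlt ⟨hu, E_trans hG hu (Nat.find_spec hex).1 hv (Or.inr h)
    (Nat.find_spec hex).2⟩

theorem rep_unique {M : List (List Bool)} {S : List ℕ} (hG : GoodS M S) {v r r' : ℕ}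
    (hv : v ∈ vs M S) (hr : r ∈ reps M S) (hr' : r' ∈ reps M S) (h : E M r v) (h' : E M r' v) :
    r = r' := by
  have key : ∀ r r' : ℕ, r ∈ reps M S → r' ∈ reps M S → E M r v → E M r' v → ¬ r < r' := by
    intro r r' hr hr' h h' hlt
    have h1 := (mem_reps.1 hr).1
    have h2 := mem_reps.1 hr'
    rcases E_trans hG h1 hv h2.1 h (E_symm h') with h3 | h3
    · omega
    · exact h2.2 r h1 h3 hlt
  have h1 := key r r' hr hr' h h'
  have h2 := key r' r hr' hr h' h
  omega

theorem val_le (M : List (List Bool)) (S : List ℕ) (Z : List (ℕ × ℕ)) (p : ℕ) (w : List Unit)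
    (r A : ℕ) : val M S Z p w r A ≤ M.length := by
  unfold val
  refine (List.length_filter_le _ _).trans ?_
  rw [List.length_range]

theorem val_att (M : List (List Bool)) (S : List ℕ) (Z : List (ℕ × ℕ)) (p : ℕ) (w : List Unit)
    (r A : ℕ) : ∃ J, sub p A J = true ∧ val M S Z p w r A + dif p A J ≤ wv M S Z p r J := by
  rcases Nat.eq_zero_or_pos (val M S Z p w r A) with h0 | h0
  · refine ⟨A, ?_, ?_⟩
    · unfold sub
      rw [List.all_eq_true]
      intro j _
      cases bt A j <;> rfl
    · have h1 : dif p A A = 0 := by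
        unfold dif
        rw [List.length_eq_zero_iff, List.filter_eq_nil_iff]
        intro j _
        cases bt A j <;> simp
      omega
  · by_contra hcon
    push Not at hcon
    have h2 : ∀ m ∈ (List.range M.length).filter (fun m => (subs p w).any fun J =>
        sub p A J && decide (m < wv M S Z p r J - dif p A J)), m < val M S Z p w r A - 1 := by
      intro m hm
      rw [List.mem_filter, List.any_eq_true] at hm
      obtain ⟨_, J, _, h3⟩ := hm
      rw [Bool.and_eq_true, decide_eq_true_iff] at h3
      have h4 := hcon J h3.1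
      omega
    have h5 : ((List.range M.length).filter (fun m => (subs p w).any fun J =>
        sub p A J && decide (m < wv M S Z p r J - dif p A J))).length ≤
        val M S Z p w r A - 1 := by
      have h6 := (List.subperm_of_subset (List.nodup_range.filter _) (fun m hm =>
        List.mem_range.2 (h2 m hm))).length_le
      rwa [List.length_range] at h6
    have h7 : ((List.range M.length).filter (fun m => (subs p w).any fun J =>
        sub p A J && decide (m < wv M S Z p r J - dif p A J))).length = val M S Z p w r A := rfl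
    omega

theorem sum_range_list (p : ℕ) (f : ℕ → ℕ) :
    ((List.range p).map f).sum = ∑ j ∈ Finset.range p, f j := by
  induction p with
  | zero => simp
  | succ p ih => rw [List.range_succ, List.map_append, List.sum_append, ih, Finset.sum_range_succ]; simp

theorem sum_list_getD (B : List ℕ) (g : ℕ → ℕ) :
    (B.map g).sum = ∑ i ∈ Finset.range B.length, g (B.getD i 0) := by
  rw [← sum_range_list]
  congr 1
  apply List.ext_getElem
  · simp
  · intro i h1 h2
    have h3 : i < B.length := by simpa using h1
    simp [List.getD_eq_getElem?_getD, h3]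

/-- class `j` -/
theorem class_card {M : List (List Bool)} {B S cm x : List ℕ} {p : ℕ} {col φ : ℕ → ℕ}
    (hG : GoodS M S) (hcm : cm.length = S.length) (hsel : IsSel M.length B p col x)
    (hcol : IsCol M B (S.zip cm) col φ) {j : ℕ} (hj : j < p) :
    ((vs M S).toFinset.filter fun v => φ v = col j).card + siz (S.zip cm) j ≤ x.getD j 0 := by
  classical
  set Z := S.zip cm with hZ
  have hfst : Z.map Prod.fst = S := by
    rw [hZ]
    exact List.map_fst_zip (by omega)
  set l := (Z.filter fun z => decide (z.2 = j)).map Prod.fst with hl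
  have hsubl : l.Sublist S := by
    rw [← hfst, hl]
    exact List.filter_sublist.map _
  have hnd : l.Nodup := hsubl.nodup hG.1
  have hcard : l.toFinset.card = siz Z j := by
    rw [List.toFinset_card_of_nodup hnd, hl, List.length_map]
    rfl
  have hdisj : Disjoint ((vs M S).toFinset.filter fun v => φ v = col j) l.toFinset := by
    rw [Finset.disjoint_left]
    intro v h1 h2
    rw [Finset.mem_filter, List.mem_toFinset] at h1
    rw [List.mem_toFinset] at h2
    exact (mem_vs.1 h1.1).2 (hsubl.subset h2)
  have hsub : ((vs M S).toFinset.filter fun v => φ v = col j) ∪ l.toFinset ⊆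
      (Finset.range M.length).filter fun v => φ v = col j := by
    intro v hv
    rw [Finset.mem_filter, Finset.mem_range]
    rcases Finset.mem_union.1 hv with h1 | h1
    · rw [Finset.mem_filter, List.mem_toFinset] at h1
      exact ⟨(mem_vs.1 h1.1).1, h1.2⟩
    · rw [List.mem_toFinset] at h1
      refine ⟨hG.2.1 v (hsubl.subset h1), ?_⟩
      rw [hl, List.mem_map] at h1
      obtain ⟨z, hz, rfl⟩ := h1
      rw [List.mem_filter, decide_eq_true_iff] at hz
      rw [hcol.2.2.2 z hz.1, hz.2]
  have h3 := Finset.card_le_card hsub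
  rw [Finset.card_union_of_disjoint hdisj, hcard] at h3
  have h4 := hcol.2.2.1 (col j) (hsel.1 j hj)
  have h5 : ((Finset.range M.length).filter fun v => φ v = col j).card ≤ M.length := by
    refine (Finset.card_filter_le _ _).trans ?_
    rw [Finset.card_range]
  rw [hsel.2.2 j hj]
  exact le_min (h3.trans h4) (h3.trans h5)

theorem mem_filter' {α : Type} {s : Finset α} {q : α → Prop} (inst : DecidablePred q) {a : α}
    (h1 : a ∈ s) (h2 : q a) : a ∈ @Finset.filter α q inst s :=
  Finset.mem_filter.2 ⟨h1, h2⟩

theorem EXT1 : S_TOP → S_HALL1 → S_EXT1 := by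
  intro hT hH
  classical
  intro M B S cm x p w col φ hG hcm _ _ hsel hcol t ht A _
  set Z := S.zip cm with hZ
  by_contra hcon
  have hv : viol M B S Z p w x t A = true := by simpa using hcon
  unfold viol at hv
  rw [List.all_eq_true] at hv
  have hv2 : ∀ l ≤ M.length, rhs B p x t A < lhs M S Z p w x t A l := by
    intro l hl
    have := hv l (List.mem_range.2 (by omega))
    exact of_decide_eq_true this
  set K0 := (reps M S).toFinset with hK0
  have hK0c : K0.card = (reps M S).length := List.toFinset_card_of_nodup (reps_nodup M S)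
  set third := ((List.range p).map fun j => if bt A j = true then siz Z j
    else min (x.getD j 0) t).sum with h3
  obtain ⟨T, hTK, hTc, hTX⟩ := (hT K0 M.length t (rhs B p x t A + 1 - third)
    (fun r => val M S Z p w r A) (fun r _ => val_le M S Z p w r A) (by omega)).1 (by
    intro l hl
    have h := hv2 l hl
    unfold lhs at h
    have e : ((reps M S).map fun r => val M S Z p w r A - l).sum =
        ∑ r ∈ K0, (val M S Z p w r A - l) := (List.sum_toFinset _ (reps_nodup M S)).symm
    rw [e] at h
    omega)
  have hlt : rhs B p x t A < ∑ r ∈ T, val M S Z p w r A + third := by omega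
  -- the data of `S_HALL1`
  set V0 := (vs M S).toFinset with hV0
  set I0 := Finset.range B.length \ (Finset.range p).image col with hI0
  have hvV : ∀ v : V0, (v : ℕ) ∈ vs M S := fun v => List.mem_toFinset.1 v.2
  have hrep : ∀ v : V0, ∃ r : K0, E M r v := by
    intro v
    obtain ⟨r, hr, h⟩ := ex_rep hG (hvV v)
    exact ⟨⟨r, List.mem_toFinset.2 hr⟩, h⟩
  choose rp hrp using hrep
  choose J hJ1 hJ2 using fun r => val_att M S Z p w r A
  have hfex : ∀ v : V0, ∃ c : Fin p ⊕ I0, (∀ j, c = Sum.inl j → φ v = col j) ∧
      ∀ i, c = Sum.inr i → φ v = (i : ℕ) := by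
    intro v
    by_cases h : ∃ j : Fin p, φ v = col j
    · obtain ⟨j, hj⟩ := h
      refine ⟨Sum.inl j, ?_, ?_⟩
      · intro j' hj'
        rw [← Sum.inl.inj hj', hj]
      · intro i hi
        exact absurd hi (by simp)
    · refine ⟨Sum.inr ⟨φ v, ?_⟩, ?_, ?_⟩
      · rw [hI0, Finset.mem_sdiff, Finset.mem_range]
        refine ⟨hcol.1 v (mem_vs.1 (hvV v)).1, ?_⟩
        rw [Finset.mem_image]
        rintro ⟨j, hj, hje⟩
        exact h ⟨⟨j, Finset.mem_range.1 hj⟩, hje.symm⟩
      · intro j hj
        exact absurd hj (by simp)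
      · intro i hi
        rw [← Sum.inr.inj hi]
  choose f hfl hfr using hfex
  have hclass : ∀ j, j < p → ((V0.filter fun v => φ v = col j).card + siz Z j ≤ x.getD j 0) :=
    fun j hj => class_card hG hcm hsel hcol hj
  have c1 : ∀ (v : V0) (j : Fin p), f v = Sum.inl j → al M Z v j = true := by
    intro v j hj
    have h1 := hfl v j hj
    unfold al
    rw [List.all_eq_true]
    intro z hz
    rw [Bool.not_eq_true', Bool.and_eq_false_iff, decide_eq_false_iff_not]
    by_cases h2 : z.2 = j
    · refine Or.inr ?_
      by_contra h4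
      rw [Bool.not_eq_false] at h4
      have hz1 : z.1 ∈ S := (List.of_mem_zip hz).1
      have h5 := hcol.2.1 z.1 (hG.2.1 _ hz1) v (mem_vs.1 (hvV v)).1 h4
      apply h5
      rw [hcol.2.2.2 z hz, h2, h1]
    · exact Or.inl h2
  have c2 : ∀ u v : V0, u ≠ v → rp u = rp v → f u ≠ f v := by
    intro u v huv hr hf
    have hE : E M u v := by
      refine E_trans hG (hvV u) (mem_reps.1 (List.mem_toFinset.1 (rp u).2)).1 (hvV v)
        (E_symm (hrp u)) ?_
      rw [hr]
      exact hrp v
    have hφ : φ u = φ v := by
      rcases h : f u with j | i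
      · rw [hfl u j h, hfl v j (hf ▸ h)]
      · rw [hfr u i h, hfr v i (hf ▸ h)]
    rcases hE with h | h
    · exact huv (Subtype.ext h.symm)
    · exact hcol.2.1 u (mem_vs.1 (hvV u)).1 v (mem_vs.1 (hvV v)).1 h hφ
  have c3 : ∀ j : Fin p, (Finset.univ.filter fun v => f v = Sum.inl j).card ≤
      x.getD j 0 - siz Z j := by
    intro j
    have h1 := hclass j j.2
    have h2 : (Finset.univ.filter fun v : V0 => f v = Sum.inl j).card ≤
        (V0.filter fun v => φ v = col j).card := by
      refine Finset.card_le_card_of_injOn (fun v => (v : ℕ)) ?_ ?_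
      · intro v hv
        rw [Finset.mem_coe, Finset.mem_filter] at hv ⊢
        exact ⟨v.2, hfl v j hv.2⟩
      · intro u _ v _ h
        exact Subtype.ext h
    omega
  have c4 : ∀ i : I0, (Finset.univ.filter fun v => f v = Sum.inr i).card ≤ B.getD i 0 := by
    intro i
    have hi : (i : ℕ) < B.length := Finset.mem_range.1 (Finset.mem_sdiff.1
      (show (i : ℕ) ∈ Finset.range B.length \ (Finset.range p).image col from i.2)).1
    refine le_trans ?_ (hcol.2.2.1 i hi)
    refine Finset.card_le_card_of_injOn (fun v => (v : ℕ)) ?_ ?_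
    · intro v hv
      rw [Finset.mem_coe, Finset.mem_filter] at hv ⊢
      exact ⟨Finset.mem_range.2 (mem_vs.1 (hvV v)).1, hfr v i hv.2⟩
    · intro u _ v _ h
      exact Subtype.ext h
  have hall := hH V0 K0 (Fin p) I0 rp (fun v j => al M Z v j) (fun j => x.getD j 0 - siz Z j)
    (fun i => B.getD i 0) f c1 c2 c3 c4 (Finset.univ.filter fun j : Fin p => bt A j = true)
    (T.subtype (· ∈ K0)) (fun k => Finset.univ.filter fun j : Fin p => bt (J k) j = true)
  have hcT : (T.subtype (· ∈ K0)).card = t := by
    rw [Finset.card_subtype, Finset.filter_true_of_mem hTK, hTc]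
  rw [hcT] at hall
  have hle : ∑ k ∈ T.subtype (· ∈ K0), (val M S Z p w k A +
      ((Finset.univ.filter fun j : Fin p => bt (J k) j = true) \
        (Finset.univ.filter fun j : Fin p => bt A j = true)).card) ≤
      ∑ i : I0, min (B.getD i 0) t +
      ∑ j ∈ (Finset.univ.filter fun j : Fin p => bt A j = true), (x.getD j 0 - siz Z j) +
      ∑ k ∈ T.subtype (· ∈ K0), ((Finset.univ.filter fun j : Fin p => bt (J k) j = true) \
        (Finset.univ.filter fun j : Fin p => bt A j = true)).card := by
    refine le_trans (Finset.sum_le_sum fun k _ => ?_) hall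
    have h1 := hJ2 k
    have h2 : ((Finset.univ.filter fun j : Fin p => bt (J k) j = true) \
        (Finset.univ.filter fun j : Fin p => bt A j = true)).card ≤ dif p A (J k) := by
      unfold dif
      refine le_trans ?_ (List.toFinset_card_le _)
      refine Finset.card_le_card_of_injOn (fun j => (j : ℕ)) ?_ ?_
      · intro j hj
        rw [Finset.mem_coe, Finset.mem_sdiff, Finset.mem_filter, Finset.mem_filter] at hj
        rw [Finset.mem_coe, List.mem_toFinset, List.mem_filter, Bool.and_eq_true]
        refine ⟨List.mem_range.2 j.2, hj.1.2, ?_⟩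
        have h5 : ¬ bt A j = true := fun h => hj.2 ⟨Finset.mem_univ _, h⟩
        simpa using h5
      · intro u _ v _ h
        exact Fin.ext h
    refine le_trans (add_le_add le_rfl h2) (le_trans h1 ?_)
    unfold wv
    rw [← List.toFinset_card_of_nodup ((clq_nodup M S k).filter _)]
    refine le_trans (Finset.card_le_card ?_) (Finset.card_image_le (f := fun v : V0 => (v : ℕ)))
    intro v hv
    rw [List.mem_toFinset, List.mem_filter, mem_clq, List.all_eq_true] at hv
    obtain ⟨⟨h5, h6⟩, h7⟩ := hv
    rw [Finset.mem_image]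
    refine ⟨⟨v, List.mem_toFinset.2 h5⟩, ?_, rfl⟩
    refine mem_filter' _ (Finset.mem_univ _) ⟨?_, ?_⟩
    · apply Subtype.ext
      exact rep_unique hG h5 (List.mem_toFinset.1 (rp _).2) (List.mem_toFinset.1 k.2)
        (hrp ⟨v, List.mem_toFinset.2 h5⟩) h6
    · intro j hj
      rw [Finset.mem_filter]
      refine ⟨Finset.mem_univ _, ?_⟩
      have h8 := h7 j (List.mem_range.2 j.2)
      simp only at hj
      rw [hj] at h8
      simpa using h8
  have hsum : ∑ k ∈ T.subtype (· ∈ K0), val M S Z p w k A = ∑ r ∈ T, val M S Z p w r A :=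
    Finset.sum_subtype_of_mem (fun r => val M S Z p w r A) hTK
  rw [Finset.sum_add_distrib, hsum] at hle
  have hmain : ∑ r ∈ T, val M S Z p w r A ≤ ∑ i : I0, min (B.getD i 0) t +
      ∑ j ∈ (Finset.univ.filter fun j : Fin p => bt A j = true), (x.getD j 0 - siz Z j) := by
    omega
  -- the sums
  have s1 : ∑ i : I0, min (B.getD i 0) t = ∑ i ∈ I0, min (B.getD i 0) t :=
    Finset.sum_coe_sort I0 (fun i => min (B.getD i 0) t)
  have s2 : ∑ j ∈ (Finset.univ.filter fun j : Fin p => bt A j = true),
      (x.getD j 0 - siz Z j) = ∑ j ∈ Finset.range p,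
        (if bt A j = true then x.getD j 0 - siz Z j else 0) := by
    rw [Finset.sum_filter]
    exact Fin.sum_univ_eq_sum_range (fun j => if bt A j = true then x.getD j 0 - siz Z j else 0) p
  have s3 : ∑ i ∈ I0, min (B.getD i 0) t + ∑ j ∈ Finset.range p, min (B.getD (col j) 0) t =
      ∑ i ∈ Finset.range B.length, min (B.getD i 0) t := by
    rw [← Finset.sum_sdiff (s₁ := (Finset.range p).image col) (s₂ := Finset.range B.length),
      Finset.sum_image]
    · intro i hi j hj h
      exact hsel.2.1 i (Finset.mem_range.1 hi) j (Finset.mem_range.1 hj) h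
    · intro i hi
      rw [Finset.mem_image] at hi
      obtain ⟨j, hj, rfl⟩ := hi
      exact Finset.mem_range.2 (hsel.1 j (Finset.mem_range.1 hj))
  have s4 : rhs B p x t A = ∑ i ∈ Finset.range B.length, min (B.getD i 0) t +
      ∑ j ∈ Finset.range p, (if bt A j = true then x.getD j 0 - t else 0) := by
    unfold rhs
    rw [sum_list_getD B (fun b => min b t), sum_range_list]
  have s5 : third = ∑ j ∈ Finset.range p,
      (if bt A j = true then siz Z j else min (x.getD j 0) t) := by
    rw [h3, sum_range_list]
  have s6 : ∑ j ∈ Finset.range p, (if bt A j = true then x.getD j 0 - siz Z j else 0) +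
      ∑ j ∈ Finset.range p, (if bt A j = true then siz Z j else min (x.getD j 0) t) ≤
      ∑ j ∈ Finset.range p, min (B.getD (col j) 0) t +
      ∑ j ∈ Finset.range p, (if bt A j = true then x.getD j 0 - t else 0) := by
    rw [← Finset.sum_add_distrib, ← Finset.sum_add_distrib]
    refine Finset.sum_le_sum fun j hj => ?_
    have hj' := Finset.mem_range.1 hj
    have h5 := hsel.2.2 j hj'
    have h6 := hclass j hj'
    split_ifs <;> omega
  omega

end Pool.Agent.H32.CVE1
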