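import Pool.Agent.H979.FR.Stm

set_option autoImplicit false
set_option linter.unusedVariables false
set_option linter.unusedSectionVars false

open MeasureTheory ProbabilityTheory Finset
open scoped ENNReal NNReal

/-!
# FR project: the hitting lower bound `S_SM`
-/

namespace Pool.Agent.H32.FRSM

open Pool.Agent.H979.FR

section

variable {V : Type} [MeasurableSpace V] [DiscreteMeasurableSpace V] [Countable V]

/-- the sigma-algebra of one coordinate -/
@[reducible] def co (p : ℕ × V) : MeasurableSpace (ℕ × V → V) :=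
  MeasurableSpace.comap (fun c : ℕ × V → V => c p) inferInstance

/-- the sigma-algebra of the choices before time `n` -/
@[reducible] def Fil (V : Type) [MeasurableSpace V] (n : ℕ) : MeasurableSpace (ℕ × V → V) :=
  ⨆ p ∈ {p : ℕ × V | p.1 < n}, co p

theorem co_le (p : ℕ × V) : co p ≤ (MeasurableSpace.pi : MeasurableSpace (ℕ × V → V)) :=
  (measurable_pi_apply p).comap_le

theorem Fil_le (n : ℕ) : Fil V n ≤ (MeasurableSpace.pi : MeasurableSpace (ℕ × V → V)) :=
  iSup₂_le fun p _ => co_le p

theorem Fil_mono {n m : ℕ} (h : n ≤ m) : Fil V n ≤ Fil V m :=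
  biSup_mono fun p hp => lt_of_lt_of_le hp h

theorem co_set (p : ℕ × V) (w : V) : MeasurableSet[co p] {c : ℕ × V → V | c p = w} :=
  ⟨{w}, MeasurableSet.of_discrete, rfl⟩

theorem path_meas (x : V) (n : ℕ) (y : V) :
    MeasurableSet[Fil V n] {c : ℕ × V → V | path x c n = y} := by
  induction n generalizing y with
  | zero =>
    simp only [path]
    exact MeasurableSet.const _
  | succ n ih =>
    have h : {c : ℕ × V → V | path x c (n + 1) = y} =
        ⋃ v, ({c : ℕ × V → V | path x c n = v} ∩ {c : ℕ × V → V | c (n, v) = y}) := by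
      ext c
      simp [path]
    rw [h]
    refine MeasurableSet.iUnion fun v => MeasurableSet.inter (Fil_mono (Nat.le_succ n) _ (ih v)) ?_
    exact (le_iSup₂ (f := fun (p : ℕ × V) (_ : p ∈ {p : ℕ × V | p.1 < n + 1}) => co p)
      (n, v) (Nat.lt_succ_self n)) _ (co_set (n, v) y)

theorem Fo_meas (φ : V → ℕ → V) (x : V) (n τ : ℕ) : MeasurableSet[Fil V (n + τ)]
    {c : ℕ × V → V | ∀ i ≤ τ, path x c (n + i) = φ (path x c n) i} := by
  have h : {c : ℕ × V → V | ∀ i ≤ τ, path x c (n + i) = φ (path x c n) i} =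
      ⋂ i : ℕ, ⋂ (_ : i ≤ τ), ⋃ y : V, ({c : ℕ × V → V | path x c n = y} ∩
        {c : ℕ × V → V | path x c (n + i) = φ y i}) := by
    ext c
    simp
  rw [h]
  refine MeasurableSet.iInter fun i => MeasurableSet.iInter fun hi => MeasurableSet.iUnion fun y =>
    MeasurableSet.inter (Fil_mono (Nat.le_add_right n τ) _ (path_meas x n y)) ?_
  exact Fil_mono (Nat.add_le_add_left hi n) _ (path_meas x (n + i) (φ y i))

variable (G : SimpleGraph V) [G.LocallyFinite]

theorem iIndep_co : iIndep (fun p : ℕ × V => co p) (choiceLaw G) :=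
  iIndepFun_infinitePi (P := fun p : ℕ × V => stepLaw G p.2) (X := fun _ v => v)
    (fun _ => measurable_id)

theorem indep_step (n : ℕ) (v : V) : Indep (Fil V n) (co (n, v)) (choiceLaw G) := by
  have h := indep_iSup_of_disjoint (fun p => co_le p) (iIndep_co G)
    (S := {p : ℕ × V | p.1 < n}) (T := {(n, v)}) (by simp)
  have e : (⨆ i ∈ ({(n, v)} : Set (ℕ × V)), co i) = co (n, v) := by simp
  rw [e] at h
  exact h

theorem step_apply (d : ℕ) (hd : 0 < d) (hdeg : ∀ v, G.degree v = d) (v w : V) :
    stepLaw G v {w} = open Classical in if G.Adj v w then (d : ℝ≥0∞)⁻¹ else 0 := by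
  classical
  have hne : (G.neighborSet v).Nonempty := by
    have h1 : 0 < (G.neighborFinset v).card := by
      rw [SimpleGraph.card_neighborFinset_eq_degree, hdeg]; exact hd
    obtain ⟨z, hz⟩ := Finset.card_pos.mp h1
    exact ⟨z, by simpa using hz⟩
  rw [stepLaw, if_pos hne]
  have e : G.neighborSet v = ((G.neighborFinset v : Finset V) : Set V) := by
    ext z; simp
  have e2 : ({w} : Set V) = (({w} : Finset V) : Set V) := by simp
  rw [e, e2, uniformOn_apply_finset, SimpleGraph.card_neighborFinset_eq_degree, hdeg]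
  by_cases h : G.Adj v w
  · rw [if_pos h]
    have : G.neighborFinset v ∩ {w} = {w} := by
      ext z
      simp only [Finset.mem_inter, SimpleGraph.mem_neighborFinset, Finset.mem_singleton]
      constructor
      · exact fun h => h.2
      · rintro rfl; exact ⟨h, rfl⟩
    rw [this]
    simp
  · rw [if_neg h]
    have : G.neighborFinset v ∩ {w} = ∅ := by
      ext z
      simp only [Finset.mem_inter, SimpleGraph.mem_neighborFinset, Finset.mem_singleton,
        Finset.notMem_empty, iff_false]
      rintro ⟨h1, rfl⟩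
      exact h h1
    rw [this]
    simp

theorem step_law (n : ℕ) (v w : V) (E : Set (ℕ × V → V)) (hE : MeasurableSet[Fil V n] E) :
    choiceLaw G (E ∩ {c | c (n, v) = w}) = choiceLaw G E * stepLaw G v {w} := by
  have h := indep_step G n v
  rw [Indep_iff] at h
  rw [h E _ hE (co_set (n, v) w)]
  congr 1
  have h2 : (choiceLaw G).map (fun c : ℕ × V → V => c (n, v)) = stepLaw G v :=
    Measure.infinitePi_map_eval (fun p : ℕ × V => stepLaw G p.2) (n, v)
  rw [← h2, Measure.map_apply (measurable_pi_apply _) MeasurableSet.of_discrete]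
  rfl

theorem follow (d : ℕ) (hd : 0 < d) (hdeg : ∀ v, G.degree v = d) (φ : V → ℕ → V)
    (h0 : ∀ x, φ x 0 = x) (h1 : ∀ x i, G.Adj (φ x i) (φ x (i + 1))) (x : V) (n : ℕ) (y : V)
    (E : Set (ℕ × V → V)) (hE : MeasurableSet[Fil V n] E) (hEy : E ⊆ {c | path x c n = y})
    (i : ℕ) :
    MeasurableSet[Fil V (n + i)] (E ∩ {c | ∀ k ≤ i, path x c (n + k) = φ y k}) ∧
    choiceLaw G (E ∩ {c | ∀ k ≤ i, path x c (n + k) = φ y k}) =
      choiceLaw G E * ((d : ℝ≥0∞)⁻¹) ^ i := by
  induction i with
  | zero =>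
    have e : E ∩ {c | ∀ k ≤ 0, path x c (n + k) = φ y k} = E := by
      apply Set.inter_eq_left.mpr
      intro c hc k hk
      obtain rfl := Nat.le_zero.mp hk
      rw [h0]
      exact hEy hc
    rw [e]
    exact ⟨hE, by simp⟩
  | succ i ih =>
    obtain ⟨ih1, ih2⟩ := ih
    have e : E ∩ {c | ∀ k ≤ i + 1, path x c (n + k) = φ y k} =
        (E ∩ {c | ∀ k ≤ i, path x c (n + k) = φ y k}) ∩ {c | c (n + i, φ y i) = φ y (i + 1)} := by
      ext c
      simp only [Set.mem_inter_iff, Set.mem_ofPred_eq]
      constructor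
      · rintro ⟨hc, hk⟩
        refine ⟨⟨hc, fun k hk' => hk k (by omega)⟩, ?_⟩
        have h2 := hk (i + 1) le_rfl
        have h3 := hk i (by omega)
        rw [← Nat.add_assoc] at h2
        simp only [path] at h2
        rw [h3] at h2
        exact h2
      · rintro ⟨⟨hc, hk⟩, h2⟩
        refine ⟨hc, fun k hk' => ?_⟩
        rcases Nat.lt_or_ge k (i + 1) with h | h
        · exact hk k (by omega)
        · have : k = i + 1 := by omega
          subst this
          rw [← Nat.add_assoc]
          simp only [path]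
          rw [hk i le_rfl]
          exact h2
    rw [e]
    constructor
    · refine MeasurableSet.inter (Fil_mono (by omega) _ ih1) ?_
      exact (le_iSup₂ (f := fun (p : ℕ × V) (_ : p ∈ {p : ℕ × V | p.1 < n + (i + 1)}) => co p)
        (n + i, φ y i) (show n + i < n + (i + 1) by omega)) _ (co_set _ _)
    · rw [step_law G (n + i) (φ y i) (φ y (i + 1)) _ ih1, ih2, step_apply G d hd hdeg,
        if_pos (h1 y i), pow_succ, mul_assoc]

/-- Markov property in the form needed. -/
theorem markov (d : ℕ) (hd : 0 < d) (hdeg : ∀ v, G.degree v = d) (φ : V → ℕ → V)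
    (h0 : ∀ x, φ x 0 = x) (h1 : ∀ x i, G.Adj (φ x i) (φ x (i + 1))) (x : V) (n τ : ℕ)
    (E : Set (ℕ × V → V)) (hE : MeasurableSet[Fil V n] E) :
    choiceLaw G (E ∩ {c | ∀ i ≤ τ, path x c (n + i) = φ (path x c n) i}) =
      choiceLaw G E * ((d : ℝ≥0∞)⁻¹) ^ τ := by
  have hF : ∀ y, MeasurableSet[Fil V n] (E ∩ {c : ℕ × V → V | path x c n = y}) := fun y =>
    MeasurableSet.inter hE (path_meas x n y)
  have hfo : ∀ y, _ := fun y => follow G d hd hdeg φ h0 h1 x n y
    (E ∩ {c : ℕ × V → V | path x c n = y}) (hF y) Set.inter_subset_right τ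
  have e1 : E ∩ {c | ∀ i ≤ τ, path x c (n + i) = φ (path x c n) i} =
      ⋃ y : V, ((E ∩ {c : ℕ × V → V | path x c n = y}) ∩
        {c | ∀ k ≤ τ, path x c (n + k) = φ y k}) := by
    ext c
    simp only [Set.mem_inter_iff, Set.mem_ofPred_eq, Set.mem_iUnion]
    constructor
    · rintro ⟨hc, hk⟩
      exact ⟨_, ⟨hc, rfl⟩, hk⟩
    · rintro ⟨y, ⟨hc, rfl⟩, hk⟩
      exact ⟨hc, hk⟩
  have e2 : E = ⋃ y : V, (E ∩ {c : ℕ × V → V | path x c n = y}) := by
    ext c
    simp
  have d2 : Pairwise (Function.onFun Disjoint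
      (fun y : V => E ∩ {c : ℕ × V → V | path x c n = y})) := by
    intro y z hyz
    refine Set.disjoint_left.mpr ?_
    rintro c ⟨_, h2⟩ ⟨_, h3⟩
    exact hyz (h2.symm.trans h3)
  have d1 : Pairwise (Function.onFun Disjoint
      (fun y : V => (E ∩ {c : ℕ × V → V | path x c n = y}) ∩
        {c | ∀ k ≤ τ, path x c (n + k) = φ y k})) := by
    intro y z hyz
    exact (d2 hyz).mono Set.inter_subset_left Set.inter_subset_left
  rw [e1, measure_iUnion d1 (fun y => Fil_le _ _ (hfo y).1)]
  conv_rhs => rw [e2, measure_iUnion d2 (fun y => Fil_le _ _ (hF y)), ← ENNReal.tsum_mul_right]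
  exact tsum_congr fun y => (hfo y).2

end

/-- last step decomposition of the kernel -/
theorem pn_last {V : Type} (G : SimpleGraph V) [G.LocallyFinite] (d : ℕ) (hd : 0 < d)
    (hdeg : ∀ v, G.degree v = d) (n : ℕ) (x y : V) :
    pn G (n + 1) x y = (∑ z ∈ G.neighborFinset y, pn G n x z) / d := by
  classical
  induction n generalizing x y with
  | zero =>
    simp only [pn, hdeg]
    congr 1
    by_cases h : G.Adj x y
    · rw [Finset.sum_eq_single y, Finset.sum_eq_single x]
      · simp
      · intro b _ hb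
        exact if_neg (fun h => hb h.symm)
      · intro h'
        exact absurd (by simpa using h.symm) h'
      · intro b _ hb
        exact if_neg hb
      · intro h'
        exact absurd (by simpa using h) h'
    · rw [Finset.sum_eq_zero, Finset.sum_eq_zero]
      · intro z hz
        rw [if_neg]
        rintro rfl
        exact h (by simpa using (G.mem_neighborFinset y x).mp hz |>.symm)
      · intro z hz
        rw [if_neg]
        rintro rfl
        exact h (by simpa using hz)
  | succ n ih =>
    have e1 : pn G (n + 1 + 1) x y =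
        (∑ z ∈ G.neighborFinset x, pn G (n + 1) z y) / d := by
      rw [pn, hdeg]
    have e2 : ∀ w, pn G (n + 1) x w = (∑ z ∈ G.neighborFinset x, pn G n z w) / d := by
      intro w
      rw [pn, hdeg]
    have e3 : ∑ z ∈ G.neighborFinset x, pn G (n + 1) z y =
        ∑ z ∈ G.neighborFinset x, (∑ w ∈ G.neighborFinset y, pn G n z w) / d :=
      Finset.sum_congr rfl fun z _ => ih z y
    have e4 : ∑ w ∈ G.neighborFinset y, pn G (n + 1) x w =
        ∑ w ∈ G.neighborFinset y, (∑ z ∈ G.neighborFinset x, pn G n z w) / d :=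
      Finset.sum_congr rfl fun w _ => e2 w
    rw [e1, e3, e4, ← Finset.sum_div, ← Finset.sum_div, Finset.sum_comm]

section

variable {V : Type} [MeasurableSpace V] [DiscreteMeasurableSpace V] [Countable V]
variable (G : SimpleGraph V) [G.LocallyFinite]

theorem pn_nonneg' (n : ℕ) (x y : V) : 0 ≤ pn G n x y := by
  induction n generalizing x with
  | zero => simp only [pn]; split_ifs <;> norm_num
  | succ n ih =>
    simp only [pn]
    exact div_nonneg (Finset.sum_nonneg fun z _ => ih z) (Nat.cast_nonneg _)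

theorem path_law (d : ℕ) (hd : 0 < d) (hdeg : ∀ v, G.degree v = d) (x : V) (n : ℕ) (y : V) :
    choiceLaw G {c | path x c n = y} = ENNReal.ofReal (pn G n x y) := by
  classical
  induction n generalizing y with
  | zero =>
    simp only [path, pn]
    by_cases h : x = y
    · simp [h]
    · simp [h]
  | succ n ih =>
    have h : {c : ℕ × V → V | path x c (n + 1) = y} =
        ⋃ v, ({c : ℕ × V → V | path x c n = v} ∩ {c : ℕ × V → V | c (n, v) = y}) := by
      ext c
      simp [path]
    have hdis : Pairwise (Function.onFun Disjoint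
        (fun v : V => {c : ℕ × V → V | path x c n = v} ∩ {c : ℕ × V → V | c (n, v) = y})) := by
      intro v w hvw
      refine Set.disjoint_left.mpr ?_
      rintro c ⟨h2, _⟩ ⟨h3, _⟩
      exact hvw (h2.symm.trans h3)
    have hms : ∀ v : V, MeasurableSet
        ({c : ℕ × V → V | path x c n = v} ∩ {c : ℕ × V → V | c (n, v) = y}) := fun v =>
      MeasurableSet.inter (Fil_le _ _ (path_meas x n v)) (co_le _ _ (co_set (n, v) y))
    rw [h, measure_iUnion hdis hms]
    have e : ∀ v : V, choiceLaw G
        ({c : ℕ × V → V | path x c n = v} ∩ {c : ℕ × V → V | c (n, v) = y}) =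
        ENNReal.ofReal (pn G n x v) * (if G.Adj v y then (d : ℝ≥0∞)⁻¹ else 0) := by
      intro v
      rw [step_law G n v y _ (path_meas x n v), ih, step_apply G d hd hdeg]
    rw [tsum_congr e, tsum_eq_sum (s := G.neighborFinset y)]
    · rw [pn_last G d hd hdeg, div_eq_mul_inv, ENNReal.ofReal_mul
        (Finset.sum_nonneg fun z _ => pn_nonneg' G n x z),
        ENNReal.ofReal_sum_of_nonneg (fun z _ => pn_nonneg' G n x z), Finset.sum_mul]
      refine Finset.sum_congr rfl fun z hz => ?_
      have hz' : G.Adj z y := ((G.mem_neighborFinset y z).mp hz).symm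
      rw [if_pos hz', ENNReal.ofReal_inv_of_pos (by exact_mod_cast hd), ENNReal.ofReal_natCast]
    · intro z hz
      rw [if_neg, mul_zero]
      intro h
      exact hz ((G.mem_neighborFinset y z).mpr h.symm)

end

end FRSM

open Pool.Agent.H979.FR FRSM in
theorem fr_sm : S_SM := by
  classical
  intro V _ _ _ G _ d hd hdeg τ m φ h0 h1 hτ hm1 hm2 x A
  set μ := choiceLaw G with hμ
  set q : ℝ := ((d : ℝ)⁻¹) ^ τ with hq
  have hdR : (0 : ℝ) < d := by exact_mod_cast hd
  have hqpos : 0 < q := by positivity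
  -- the events
  set F : ℕ → Set (ℕ × V → V) := fun j =>
    {c | ∀ i ≤ τ, path x c (j * τ + i) = φ (path x c (j * τ)) i} with hF
  set P : ℕ → Set (ℕ × V → V) := fun j => {c | path x c (j * τ) ∈ A} with hP
  set B : ℕ → Set (ℕ × V → V) := fun j => P j ∩ F j with hB
  have hFm : ∀ j, MeasurableSet[Fil V (j * τ + τ)] (F j) := fun j => Fo_meas φ x (j * τ) τ
  have hPm : ∀ j, MeasurableSet[Fil V (j * τ)] (P j) := by
    intro j
    have e : P j = ⋃ y ∈ (A : Set V), {c : ℕ × V → V | path x c (j * τ) = y} := by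
      ext c
      simp [hP]
    rw [e]
    exact MeasurableSet.biUnion (Set.to_countable _) fun y _ => path_meas x (j * τ) y
  have hBm : ∀ j, MeasurableSet[Fil V (j * τ + τ)] (B j) := fun j =>
    MeasurableSet.inter (Fil_mono (Nat.le_add_right _ _) _ (hPm j)) (hFm j)
  have hqE : ∀ r : ℝ≥0∞, (r * ((d : ℝ≥0∞)⁻¹) ^ τ).toReal = r.toReal * q := by
    intro r
    rw [ENNReal.toReal_mul, ENNReal.toReal_pow, ENNReal.toReal_inv, ENNReal.toReal_natCast]
  have hPlaw : ∀ j, μ.real (P j) = ∑ y ∈ A, pn G (j * τ) x y := by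
    intro j
    have e : P j = ⋃ y ∈ A, {c : ℕ × V → V | path x c (j * τ) = y} := by
      ext c
      simp [hP]
    rw [e, measureReal_biUnion_finset]
    · refine Finset.sum_congr rfl fun y _ => ?_
      rw [measureReal_def, hμ, path_law G d hd hdeg, ENNReal.toReal_ofReal (pn_nonneg' G _ _ _)]
    · intro y _ z _ hyz
      refine Set.disjoint_left.mpr ?_
      intro c h2 h3
      exact hyz (h2.symm.trans h3)
    · intro y _
      exact Fil_le _ _ (path_meas x _ y)
  have hBlaw : ∀ j, μ.real (B j) = μ.real (P j) * q := by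
    intro j
    rw [measureReal_def, measureReal_def, hμ, ← hqE, ← markov G d hd hdeg φ h0 h1 x (j * τ) τ
      (P j) (hPm j)]
  have hBF : ∀ j k, j < k → μ.real (B j ∩ F k) = μ.real (B j) * q := by
    intro j k hjk
    have hle : j * τ + τ ≤ k * τ := by
      calc j * τ + τ = (j + 1) * τ := by ring
        _ ≤ k * τ := Nat.mul_le_mul_right _ hjk
    rw [measureReal_def, measureReal_def, hμ, ← hqE, ← markov G d hd hdeg φ h0 h1 x (k * τ) τ
      (B j) (Fil_mono hle _ (hBm j))]
  set C : ℕ → Set (ℕ × V → V) := fun j => B j \ ⋃ k ∈ (range m).filter (j < ·), F k with hC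
  have hFm' : ∀ j, MeasurableSet (F j) := fun j => Fil_le _ _ (hFm j)
  have hBm' : ∀ j, MeasurableSet (B j) := fun j => Fil_le _ _ (hBm j)
  have hCm : ∀ j, MeasurableSet (C j) := fun j =>
    (hBm' j).diff (Finset.measurableSet_biUnion _ fun k _ => hFm' k)
  have hmq : (m : ℝ) * q ≤ 1 / 2 := by
    have h2 : (d : ℝ) ^ τ * q = 1 := by
      rw [hq, ← mul_pow, mul_inv_cancel₀ hdR.ne', one_pow]
    calc (m : ℝ) * q ≤ (d : ℝ) ^ τ / 2 * q := by gcongr
      _ = ((d : ℝ) ^ τ * q) / 2 := by ring
      _ = 1 / 2 := by rw [h2]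
  have hmq2 : 1 / 4 ≤ (m : ℝ) * q := by
    have h2 : (d : ℝ) ^ τ * q = 1 := by
      rw [hq, ← mul_pow, mul_inv_cancel₀ hdR.ne', one_pow]
    calc 1 / 4 = ((d : ℝ) ^ τ * q) / 4 := by rw [h2]
      _ = (d : ℝ) ^ τ / 4 * q := by ring
      _ ≤ (m : ℝ) * q := by gcongr
  have hClaw : ∀ j, μ.real (B j) / 2 ≤ μ.real (C j) := by
    intro j
    have h2 : μ.real (B j) ≤ μ.real (C j) +
        μ.real (⋃ k ∈ (range m).filter (j < ·), (B j ∩ F k)) := by
      have h3 : B j ⊆ C j ∪ ⋃ k ∈ (range m).filter (j < ·), (B j ∩ F k) := by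
        intro c hc
        by_cases h : c ∈ ⋃ k ∈ (range m).filter (j < ·), F k
        · right
          rw [← Set.inter_iUnion₂]
          exact ⟨hc, h⟩
        · left
          exact ⟨hc, h⟩
      exact (measureReal_mono h3).trans (measureReal_union_le _ _)
    have h3 : μ.real (⋃ k ∈ (range m).filter (j < ·), (B j ∩ F k)) ≤ μ.real (B j) / 2 := by
      calc μ.real (⋃ k ∈ (range m).filter (j < ·), (B j ∩ F k)) ≤
          ∑ k ∈ (range m).filter (j < ·), μ.real (B j ∩ F k) := measureReal_biUnion_finset_le _ _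
        _ = ∑ k ∈ (range m).filter (j < ·), μ.real (B j) * q := by
            refine Finset.sum_congr rfl fun k hk => hBF j k (Finset.mem_filter.mp hk).2
        _ = (((range m).filter (j < ·)).card : ℝ) * (μ.real (B j) * q) := by
            rw [Finset.sum_const, nsmul_eq_mul]
        _ ≤ (m : ℝ) * (μ.real (B j) * q) := by
            have h5 : (((range m).filter (j < ·)).card : ℝ) ≤ m := by
              have := Finset.card_filter_le (range m) (j < ·)
              rw [Finset.card_range] at this
              exact_mod_cast this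
            gcongr
        _ = μ.real (B j) * ((m : ℝ) * q) := by ring
        _ ≤ μ.real (B j) * (1 / 2) := by gcongr
        _ = μ.real (B j) / 2 := by ring
    linarith
  have hCd : ((range m : Finset ℕ) : Set ℕ).PairwiseDisjoint C := by
    have key : ∀ j k, j < k → k < m → Disjoint (C j) (C k) := by
      intro j k hjk hk
      refine Set.disjoint_left.mpr ?_
      rintro c ⟨_, h2⟩ ⟨h3, _⟩
      apply h2
      simp only [Set.mem_iUnion]
      exact ⟨k, Finset.mem_filter.mpr ⟨Finset.mem_range.mpr hk, hjk⟩, h3.2⟩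
    intro j hj k hk hjk
    rcases lt_or_gt_of_ne hjk with h | h
    · exact key j k h (by simpa using hk)
    · exact (key k j h (by simpa using hj)).symm
  rw [ENNReal.ofReal_le_iff_le_toReal (measure_ne_top _ _)]
  have hsub : (⋃ j ∈ range m, C j) ⊆ {c | ∃ j < m, path x c (j * τ) ∈ A ∧
      ∀ i ≤ τ, path x c (j * τ + i) = φ (path x c (j * τ)) i} := by
    intro c hc
    simp only [Set.mem_iUnion] at hc
    obtain ⟨j, hj, hc⟩ := hc
    exact ⟨j, Finset.mem_range.mp hj, hc.1.1, hc.1.2⟩
  have hfin : ∑ j ∈ range m, μ.real (C j) ≤ μ.real {c | ∃ j < m, path x c (j * τ) ∈ A ∧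
      ∀ i ≤ τ, path x c (j * τ + i) = φ (path x c (j * τ)) i} := by
    rw [← measureReal_biUnion_finset hCd (fun j _ => hCm j)]
    exact measureReal_mono hsub
  rw [← measureReal_def]
  refine le_trans ?_ hfin
  set S : ℝ := ∑ j ∈ range m, ∑ y ∈ A, pn G (j * τ) x y with hS
  have hS0 : 0 ≤ S := Finset.sum_nonneg fun j _ => Finset.sum_nonneg fun y _ => pn_nonneg' G _ _ _
  have hk : ∑ y ∈ A, kap G m τ x y = S / m := by
    simp only [kap]
    rw [← Finset.sum_div, Finset.sum_comm]
  have hlow : S * q / 2 ≤ ∑ j ∈ range m, μ.real (C j) := by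
    calc S * q / 2 = ∑ j ∈ range m, μ.real (B j) / 2 := by
          rw [← Finset.sum_div, hS, Finset.sum_mul]
          congr 1
          refine Finset.sum_congr rfl fun j _ => ?_
          rw [hBlaw, hPlaw]
      _ ≤ _ := Finset.sum_le_sum fun j _ => hClaw j
  refine le_trans ?_ hlow
  rw [hk]
  rcases Nat.eq_zero_or_pos m with h | h
  · subst h
    simp at hmq2
    linarith
  · have hmR : (0 : ℝ) < m := by exact_mod_cast h
    rw [mul_div_assoc', div_le_iff₀ hmR]
    nlinarith [mul_le_mul_of_nonneg_left hmq2 hS0]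

end Pool.Agent.H32
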