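import Pool.Agent.H867.FT.Gen2

/-!
# Project FT (helper867), TAU: the explicit element `τ`
-/

set_option autoImplicit false

namespace Pool.Agent.H32.FT867

open Pool.Agent.H867.FT

theorem mem4 {P K : Type} [CommRing P] [Field K] [Algebra P K] (x : K) (c₀ c₁ c₂ c₃ c₄ : P) :
    algebraMap P K c₀ + algebraMap P K c₁ * x + algebraMap P K c₂ * x ^ 2 +
      algebraMap P K c₃ * x ^ 3 + algebraMap P K c₄ * x ^ 4 ∈ Mn P x 4 := by
  have h : ∀ (i : ℕ) (_ : i < 5) (c : P), algebraMap P K c * x ^ i ∈ Mn P x 4 := by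
    intro i hi c
    rw [← Algebra.smul_def]
    exact Submodule.smul_mem _ _ (Submodule.subset_span ⟨⟨i, hi⟩, rfl⟩)
  have h0 := h 0 (by norm_num) c₀
  have h1 := h 1 (by norm_num) c₁
  rw [pow_zero, mul_one] at h0
  rw [pow_one] at h1
  exact Submodule.add_mem _ (Submodule.add_mem _ (Submodule.add_mem _ (Submodule.add_mem _ h0 h1)
    (h 2 (by norm_num) c₂)) (h 3 (by norm_num) c₃)) (h 4 (by norm_num) c₄)

theorem tau : Pool.Agent.H867.FT.S_TAU := by
  intro P K _ _ _ _ _ a z e d ξ e₁ e₂ e₃ d₁ d₂ d₃ x ha he hd hE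
  have hA : algebraMap P K a ≠ 0 := by
    intro h
    exact ha ((map_eq_zero_iff _ (FaithfulSMul.algebraMap_injective P K)).1 h)
  have ha' : a ∈ Ideal.span {a, z} := Ideal.subset_span (by simp)
  have hz' : z ∈ Ideal.span {a, z} := Ideal.subset_span (by simp)
  rw [he, hd] at hE
  simp only [map_add, map_mul, map_pow] at hE
  have hT1 : algebraMap P K a * (-(x ^ 2 * (x - algebraMap P K ξ)) -
      x * algebraMap P K z * (algebraMap P K e₃ * x + algebraMap P K d₃) -
      algebraMap P K a * (algebraMap P K e₁ * x + algebraMap P K d₁)) =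
      algebraMap P K z * (x * (x - algebraMap P K ξ) +
        algebraMap P K z * (algebraMap P K e₃ * x + algebraMap P K d₃) +
        algebraMap P K a * (algebraMap P K e₂ * x + algebraMap P K d₂) -
        algebraMap P K a * x * (algebraMap P K e₃ * x + algebraMap P K d₃)) := by
    linear_combination -hE
  have hT2 : algebraMap P K a * (x ^ 3 * (x - algebraMap P K ξ) +
      x * (algebraMap P K a * (algebraMap P K e₁ * x + algebraMap P K d₁) +
        algebraMap P K z * (algebraMap P K e₂ * x + algebraMap P K d₂)) -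
      algebraMap P K z * (algebraMap P K e₁ * x + algebraMap P K d₁)) =
      algebraMap P K z * (-(x ^ 2 * (x - algebraMap P K ξ)) -
      x * algebraMap P K z * (algebraMap P K e₃ * x + algebraMap P K d₃) -
      algebraMap P K a * (algebraMap P K e₁ * x + algebraMap P K d₁)) := by
    linear_combination x * hE
  obtain ⟨T, hT⟩ : ∃ T : K, T = x * (x - algebraMap P K ξ) +
        algebraMap P K z * (algebraMap P K e₃ * x + algebraMap P K d₃) +
        algebraMap P K a * (algebraMap P K e₂ * x + algebraMap P K d₂) -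
        algebraMap P K a * x * (algebraMap P K e₃ * x + algebraMap P K d₃) := ⟨_, rfl⟩
  have h1 : algebraMap P K (a ^ 2) * (T / algebraMap P K a ^ 2) = T := by
    rw [map_pow]
    field_simp
  have h2 : algebraMap P K (z ^ 2) * (T / algebraMap P K a ^ 2) =
      x ^ 3 * (x - algebraMap P K ξ) +
      x * (algebraMap P K a * (algebraMap P K e₁ * x + algebraMap P K d₁) +
        algebraMap P K z * (algebraMap P K e₂ * x + algebraMap P K d₂)) -
      algebraMap P K z * (algebraMap P K e₁ * x + algebraMap P K d₁) := by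
    rw [← hT] at hT1
    rw [map_pow, mul_div_assoc', div_eq_iff (pow_ne_zero 2 hA)]
    linear_combination -algebraMap P K z * hT1 - algebraMap P K a * hT2
  refine ⟨T / algebraMap P K a ^ 2, ?_, ?_, z * d₃ + a * d₂, z * e₃ + a * e₂ - a * d₃, -(a * e₃),
    ?_, ?_, ?_, ?_⟩
  · rw [h1, hT]
    have h3 := mem4 x (z * d₃ + a * d₂) (-ξ + z * e₃ + a * e₂ - a * d₃) (1 - a * e₃) 0 0
    simp only [map_add, map_sub, map_neg, map_mul, map_one, map_zero] at h3
    refine (congrArg (· ∈ Mn P x 4) ?_).mp h3
    ring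
  · rw [h2]
    have h3 := mem4 x (-(z * d₁)) (a * d₁ + z * d₂ - z * e₁) (a * e₁ + z * e₂) (-ξ) 1
    simp only [map_add, map_sub, map_neg, map_mul, map_one] at h3
    refine (congrArg (· ∈ Mn P x 4) ?_).mp h3
    ring
  · exact Ideal.add_mem _ (Ideal.mul_mem_right _ _ hz') (Ideal.mul_mem_right _ _ ha')
  · exact Ideal.sub_mem _ (Ideal.add_mem _ (Ideal.mul_mem_right _ _ hz')
      (Ideal.mul_mem_right _ _ ha')) (Ideal.mul_mem_right _ _ ha')
  · exact neg_mem (Ideal.mul_mem_right _ _ ha')
  · rw [h1, hT]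
    simp only [map_add, map_sub, map_neg, map_mul]
    ring

end Pool.Agent.H32.FT867
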