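import Pool.Agent.H638.GM.StmB

/-!
# The boundary of a small square intersected with the unit square is connected
-/

set_option autoImplicit false

open MeasureTheory Set Filter Topology

namespace Pool.Agent.H32.GMBCIRC

open Pool.Agent.H638.GM

/-- a side -/
def Sd (x : V 2) (ρ : ℝ) (i : Fin 2) (v : ℝ) : Set (V 2) :=
  {y | (∀ j, 0 ≤ y j ∧ y j ≤ 1) ∧ y i = v ∧ ∀ j, |y j - x j| ≤ ρ}

theorem Sd_convex (x : V 2) (ρ : ℝ) (i : Fin 2) (v : ℝ) : Convex ℝ (Sd x ρ i v) := by
  intro y hy z hz a b ha hb hab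
  obtain ⟨y1, y2, y3⟩ := hy
  obtain ⟨z1, z2, z3⟩ := hz
  refine ⟨fun j => ?_, ?_, fun j => ?_⟩
  · have e : (a • y + b • z) j = a * y j + b * z j := rfl
    rw [e]
    obtain ⟨p1, p2⟩ := y1 j
    obtain ⟨q1, q2⟩ := z1 j
    constructor
    · positivity
    · calc a * y j + b * z j ≤ a * 1 + b * 1 :=
          add_le_add (mul_le_mul_of_nonneg_left p2 ha) (mul_le_mul_of_nonneg_left q2 hb)
        _ = 1 := by rw [mul_one, mul_one, hab]
  · have e : (a • y + b • z) i = a * y i + b * z i := rfl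
    rw [e, y2, z2, ← add_mul, hab, one_mul]
  · have e : (a • y + b • z) j - x j = a * (y j - x j) + b * (z j - x j) := by
      have e1 : (a • y + b • z) j = a * y j + b * z j := rfl
      rw [e1]
      have : x j = (a + b) * x j := by rw [hab, one_mul]
      linear_combination (-1 : ℝ) * this
    rw [e]
    calc |a * (y j - x j) + b * (z j - x j)| ≤ |a * (y j - x j)| + |b * (z j - x j)| :=
          abs_add_le _ _
      _ = a * |y j - x j| + b * |z j - x j| := by
          rw [abs_mul, abs_mul, abs_of_nonneg ha, abs_of_nonneg hb]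
      _ ≤ a * ρ + b * ρ :=
          add_le_add (mul_le_mul_of_nonneg_left (y3 j) ha) (mul_le_mul_of_nonneg_left (z3 j) hb)
      _ = ρ := by rw [← add_mul, hab, one_mul]

theorem dist_iff {y x : V 2} {ρ : ℝ} (hρ : 0 < ρ) :
    dist y x = ρ ↔ (∀ j, |y j - x j| ≤ ρ) ∧ ∃ i, |y i - x i| = ρ := by
  constructor
  · intro h
    have h1 : ∀ j, |y j - x j| ≤ ρ := fun j => by
      rw [← h, ← Real.dist_eq]
      exact dist_le_pi_dist y x j
    refine ⟨h1, ?_⟩
    by_contra hcon
    push Not at hcon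
    have h2 : dist y x < ρ := by
      rw [dist_pi_lt_iff hρ]
      intro j
      rw [Real.dist_eq]
      exact lt_of_le_of_ne (h1 j) (hcon j)
    linarith
  · rintro ⟨h1, i, hi⟩
    refine le_antisymm ((dist_pi_le_iff hρ.le).2 fun j => by rw [Real.dist_eq]; exact h1 j) ?_
    rw [← hi, ← Real.dist_eq]
    exact dist_le_pi_dist y x i

theorem main : S_CIRC := by
  intro x hx ρ hρ hρ2
  -- the corner `c`
  have hcx : ∀ j : Fin 2, ∃ v : ℝ, 0 ≤ v ∧ v ≤ 1 ∧ |v - x j| = ρ := by
    intro j
    obtain ⟨h1, h2⟩ := hx j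
    rcases le_or_gt (x j) (1 / 2) with h | h
    · refine ⟨x j + ρ, by linarith, by linarith, ?_⟩
      rw [add_sub_cancel_left, abs_of_pos hρ]
    · refine ⟨x j - ρ, by linarith, by linarith, ?_⟩
      rw [sub_sub_cancel_left, abs_neg, abs_of_pos hρ]
  choose c hc0 hc1 hc using hcx
  have hcA : c ∈ Q 2 ∧ dist c x = ρ :=
    ⟨fun j => ⟨hc0 j, hc1 j⟩, (dist_iff hρ).2 ⟨fun j => (hc j).le, 0, hc 0⟩⟩
  have hsub : ∀ (i : Fin 2) (v : ℝ), |v - x i| = ρ → Sd x ρ i v ⊆ {y : V 2 | y ∈ Q 2 ∧ dist y x = ρ} := by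
    rintro i v hv y ⟨h1, h2, h3⟩
    exact ⟨h1, (dist_iff hρ).2 ⟨h3, i, by rw [h2]; exact hv⟩⟩
  refine ⟨?_, c, hcA.1, hcA.2, ?_⟩
  · refine isPreconnected_of_forall c fun y hy => ?_
    obtain ⟨hyQ, hyd⟩ := hy
    obtain ⟨h1, i, hi⟩ := (dist_iff hρ).1 hyd
    obtain ⟨j, hj⟩ : ∃ j : Fin 2, j ≠ i := exists_ne i
    refine ⟨Sd x ρ i (y i) ∪ Sd x ρ j (c j), union_subset (hsub i _ hi) (hsub j _ (hc j)), ?_, ?_, ?_⟩
    · exact Or.inr ⟨fun k => ⟨hc0 k, hc1 k⟩, rfl, fun k => (hc k).le⟩
    · exact Or.inl ⟨hyQ, rfl, h1⟩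
    · have hp1 : Function.update c i (y i) ∈ Sd x ρ i (y i) := by
        refine ⟨fun k => ?_, Function.update_self i (y i) c, fun k => ?_⟩
        · by_cases hk : k = i
          · subst hk
            rw [Function.update_self]
            exact hyQ k
          · rw [Function.update_of_ne hk]
            exact ⟨hc0 k, hc1 k⟩
        · by_cases hk : k = i
          · subst hk
            rw [Function.update_self]
            exact h1 k
          · rw [Function.update_of_ne hk]
            exact (hc k).le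
      have hp2 : Function.update c i (y i) ∈ Sd x ρ j (c j) :=
        ⟨hp1.1, Function.update_of_ne hj (y i) c, hp1.2.2⟩
      exact (Sd_convex x ρ i (y i)).isPreconnected.union _ hp1 hp2
        (Sd_convex x ρ j (c j)).isPreconnected
  · refine ⟨Function.update x 0 (c 0), ?_, ?_, ?_⟩
    · intro k
      by_cases hk : k = 0
      · subst hk
        rw [Function.update_self]
        exact ⟨hc0 0, hc1 0⟩
      · rw [Function.update_of_ne hk]
        exact hx k
    · rw [dist_iff hρ]
      refine ⟨fun k => ?_, 0, ?_⟩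
      · by_cases hk : k = 0
        · subst hk
          rw [Function.update_self]
          exact (hc 0).le
        · rw [Function.update_of_ne hk, sub_self, abs_zero]
          exact hρ.le
      · rw [Function.update_self]
        exact hc 0
    · have h1 := dist_le_pi_dist c (Function.update x 0 (c 0)) 1
      rw [Function.update_of_ne (by decide), Real.dist_eq, hc 1] at h1
      exact h1

end Pool.Agent.H32.GMBCIRC
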