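import Pool.Agent.H840.MX.Stm

/-!
# Project MX (helper840), TRV: no other common zeros of the cubic and the quartic, transversality
-/

set_option autoImplicit false

namespace Pool.Agent.H32.MXTRV

open MvPolynomial Pool.Agent.T2H40.MI Pool.Agent.H840.MX

theorem sep {u v : Fin 3 → ℂ} (hu : u ≠ 0) (h : ∀ t : ℂ, v ≠ t • u) :
    ∃ r : Fin 3 → ℂ, r ⬝ᵥ u = 0 ∧ r ⬝ᵥ v ≠ 0 := by
  classical
  obtain ⟨i, hi⟩ := Function.ne_iff.1 hu
  have hi : u i ≠ 0 := hi
  obtain ⟨j, hj⟩ := Function.ne_iff.1 (h (v i / u i))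
  refine ⟨Pi.single j (u i) - Pi.single i (u j), ?_, ?_⟩
  · rw [sub_dotProduct, single_dotProduct, single_dotProduct]
    ring
  · rw [sub_dotProduct, single_dotProduct, single_dotProduct]
    intro h0
    apply hj
    rw [Pi.smul_apply, smul_eq_mul]
    field_simp
    linear_combination h0

theorem grad_mul (f g : S) (q x : Fin 3 → ℂ) :
    grad (f * g) q ⬝ᵥ x = eval q f * (grad g q ⬝ᵥ x) + eval q g * (grad f q ⬝ᵥ x) := by
  simp only [grad, dotProduct, pderiv_mul, map_add, map_mul, Finset.mul_sum]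
  rw [← Finset.sum_add_distrib]
  refine Finset.sum_congr rfl fun k _ => ?_
  ring

theorem grad_add (f g : S) (q x : Fin 3 → ℂ) :
    grad (f + g) q ⬝ᵥ x = grad f q ⬝ᵥ x + grad g q ⬝ᵥ x := by
  simp only [grad, dotProduct, map_add, add_mul, Finset.sum_add_distrib]

theorem grad_lin (l q x : Fin 3 → ℂ) : grad (lin l) q ⬝ᵥ x = l ⬝ᵥ x := by
  simp only [grad, dotProduct, pderiv_lin, eval_C]

theorem pTRV (hB : S_BEZ) : S_TRV := by
  classical
  intro F g Q hT
  refine ⟨?_, ?_⟩
  · intro q hq hqF hqg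
    by_contra hcon
    push Not at hcon
    have hs := fun i => sep (hT.ne i) (hcon i)
    choose r hr0 hr1 using hs
    have hhom : (∏ i, lin (r i)).IsHomogeneous 12 := by
      have := IsHomogeneous.prod Finset.univ (fun i => lin (r i)) (fun _ => 1)
        (fun i _ => lin_hom (r i))
      simpa using this
    obtain ⟨a, b, hab⟩ := hB F g Q hT 12 _ (by norm_num) hhom (fun i => by
      rw [map_prod]
      refine Finset.prod_eq_zero (Finset.mem_univ i) ?_
      rw [eval_lin, hr0 i])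
    have h1 := congrArg (eval q) hab
    rw [map_prod, map_add, map_mul, map_mul, hqF, hqg, mul_zero, mul_zero, add_zero] at h1
    obtain ⟨i, _, hi⟩ := Finset.prod_eq_zero_iff.1 h1
    rw [eval_lin] at hi
    exact hr1 i hi
  · intro i r hr hdet
    obtain ⟨x, hx0, hx⟩ := Matrix.exists_mulVec_eq_zero_iff.2 hdet
    have hx1 : r ⬝ᵥ x = 0 := congrFun hx 0
    have hx2 : grad F (Q i) ⬝ᵥ x = 0 := congrFun hx 1
    have hx3 : grad g (Q i) ⬝ᵥ x = 0 := congrFun hx 2
    have hs : ∀ j, ∃ L : Fin 3 → ℂ, j ≠ i → L ⬝ᵥ Q j = 0 ∧ L ⬝ᵥ Q i ≠ 0 := by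
      intro j
      by_cases hj : j = i
      · exact ⟨0, fun h => absurd hj h⟩
      · obtain ⟨L, h1, h2⟩ := sep (hT.ne j) (hT.diff i j (Ne.symm hj))
        exact ⟨L, fun _ => ⟨h1, h2⟩⟩
    choose L hL using hs
    obtain ⟨t, ht⟩ : ∃ t : ℂ, x = t • Q i := by
      by_contra hcon
      push Not at hcon
      obtain ⟨l, hl0, hl1⟩ := sep (hT.ne i) hcon
      have hhom : (lin l * ∏ j ∈ Finset.univ.erase i, lin (L j)).IsHomogeneous 12 := by
        have h1 := IsHomogeneous.prod (Finset.univ.erase i) (fun j => lin (L j)) (fun _ => 1)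
          (fun j _ => lin_hom (L j))
        have h2 := (lin_hom l).mul h1
        simpa using h2
      obtain ⟨a, b, hab⟩ := hB F g Q hT 12 _ (by norm_num) hhom (fun j => by
        rw [map_mul, map_prod]
        by_cases hj : j = i
        · subst hj
          rw [eval_lin, hl0, zero_mul]
        · rw [Finset.prod_eq_zero (Finset.mem_erase.2 ⟨hj, Finset.mem_univ j⟩), mul_zero]
          rw [eval_lin, (hL j hj).1])
      have h1 := congrArg (fun f => grad f (Q i) ⬝ᵥ x) hab
      simp only [grad_mul, grad_add, grad_lin, hx2, hx3, hT.zeroF i, hT.zerog i, eval_lin, hl0,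
        map_prod, mul_zero, zero_mul, add_zero, zero_add] at h1
      rcases mul_eq_zero.1 h1 with h2 | h2
      · obtain ⟨j, hj, hj2⟩ := Finset.prod_eq_zero_iff.1 h2
        exact (hL j (Finset.mem_erase.1 hj).1).2 hj2
      · exact hl1 h2
    have ht0 : t ≠ 0 := by
      rintro rfl
      exact hx0 (by rw [ht, zero_smul])
    rw [ht, dotProduct_smul, smul_eq_mul] at hx1
    rcases mul_eq_zero.1 hx1 with h | h
    · exact ht0 h
    · exact hr h

end Pool.Agent.H32.MXTRV
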