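import Pool.Agent.H770.GS.TB

/-!
# Project TB (helper770), TB4: one-variable shape facts of the pair density
-/

set_option autoImplicit false

open MeasureTheory Set intervalIntegral Filter Topology

namespace Pool.Agent.H32.TBshape

open Pool.Agent.H770.GS

theorem eL_eq (r x : ℝ) : Real.exp (-x ^ 2 / 4) * Real.exp (-(r - x / 2) ^ 2) = eL r x := by
  unfold eL
  rw [← Real.exp_add]
  congr 1
  ring

theorem eL_pos (r x : ℝ) : 0 < eL r x := Real.exp_pos _

theorem eL_deriv (r x : ℝ) : HasDerivAt (eL r) ((r - x) * eL r x) x := by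
  unfold eL
  have h : HasDerivAt (fun x : ℝ => -r ^ 2 + r * x - x ^ 2 / 2) (r - x) x := by
    refine ((((hasDerivAt_id x).const_mul r).const_add (-r ^ 2)).fun_sub
      ((hasDerivAt_pow 2 x).div_const 2)).congr_deriv ?_
    norm_num
  exact h.exp.congr_deriv (mul_comm _ _)

theorem nL_eq (r x : ℝ) : nL r x = x / 2 * fL r x + eL r x := by
  unfold nL
  rw [eL_eq]

theorem nLd_eq (r x : ℝ) :
    nLd r x = fL r x * (2 - x ^ 2) / 4 + eL r x * (r - 3 * x / 2) := by
  unfold nLd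
  rw [eL_eq, nL_eq]
  ring

theorem nE_eq (r q x : ℝ) : nE r q x = fL r x * (x * (4 + 2 * q - x ^ 2) / 4) +
    eL r x * (1 + q + r * x - 3 * x ^ 2 / 2) := by
  unfold nE
  rw [nL_eq, nLd_eq]
  ring

theorem nE_deriv (r q x : ℝ) : HasDerivAt (nE r q)
    (-(x / 2 * fL r x + eL r x) * (x * (4 + 2 * q - x ^ 2) / 4) +
      fL r x * ((4 + 2 * q - 3 * x ^ 2) / 4) +
      ((r - x) * eL r x * (1 + q + r * x - 3 * x ^ 2 / 2) + eL r x * (r - 3 * x))) x := by
  have e : nE r q = fun x => fL r x * (x * (4 + 2 * q - x ^ 2) / 4) +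
      eL r x * (1 + q + r * x - 3 * x ^ 2 / 2) := by
    funext y
    exact nE_eq r q y
  rw [e]
  have h1 : HasDerivAt (fun x : ℝ => x * (4 + 2 * q - x ^ 2) / 4) ((4 + 2 * q - 3 * x ^ 2) / 4) x := by
    refine (((hasDerivAt_id x).fun_mul ((hasDerivAt_pow 2 x).const_sub (4 + 2 * q))).div_const
      4).congr_deriv ?_
    norm_num
    ring
  have h2 : HasDerivAt (fun x : ℝ => 1 + q + r * x - 3 * x ^ 2 / 2) (r - 3 * x) x := by
    refine ((((hasDerivAt_id x).const_mul r).const_add (1 + q)).fun_sub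
      (((hasDerivAt_pow 2 x).const_mul 3).div_const 2)).congr_deriv ?_
    norm_num
    ring
  refine (((fL_deriv r x).fun_mul h1).fun_add ((eL_deriv r x).fun_mul h2)).congr_deriv ?_
  rw [nL_eq]

theorem ratio_deriv (r q x : ℝ) (hx : 0 < x) :
    HasDerivAt (fun x => nE r q x / x) (-mE r q x / x ^ 2) x := by
  refine ((nE_deriv r q x).fun_div (hasDerivAt_id x) hx.ne').congr_deriv ?_
  simp only [id]
  congr 1
  unfold mE
  rw [nE_eq]
  ring

theorem I2_ge {l : ℝ} (hl : 0 ≤ l) : 2 * l * Real.exp (-l ^ 2) ≤ I2 l := by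
  unfold I2
  have h : ∫ _p in (-l)..l, Real.exp (-l ^ 2) ≤ ∫ p in (-l)..l, Real.exp (-p ^ 2) := by
    refine intervalIntegral.integral_mono_on (by linarith)
      (Continuous.intervalIntegrable (by fun_prop) _ _)
      (Continuous.intervalIntegrable (by fun_prop) _ _) ?_
    intro p hp
    apply Real.exp_le_exp.2
    have : p ^ 2 ≤ l ^ 2 := sq_le_sq' hp.1 hp.2
    linarith
  rw [intervalIntegral.integral_const, smul_eq_mul] at h
  linarith

theorem fL_ge {r x : ℝ} (hx : x ≤ 2 * r) : (2 * r - x) * eL r x ≤ fL r x := by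
  unfold fL
  rw [← eL_eq]
  have h := mul_le_mul_of_nonneg_left (I2_ge (l := r - x / 2) (by linarith))
    (Real.exp_pos (-x ^ 2 / 4)).le
  refine le_trans (le_of_eq ?_) h
  ring

theorem nE_pos {r q : ℝ} (hr2 : r ^ 2 ≤ 9 / 4) (hq : 0 ≤ q) {x : ℝ}
    (hx : 0 ≤ x) (hxr : x ≤ r) : 0 < nE r q x := by
  have he := eL_pos r x
  have hf : x * eL r x ≤ fL r x :=
    (mul_le_mul_of_nonneg_right (by linarith) he.le).trans (fL_ge (by linarith))
  have hx2 : x ^ 2 ≤ 9 / 4 := (pow_le_pow_left₀ hx hxr 2).trans hr2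
  have hc : 0 ≤ x * (4 + 2 * q - x ^ 2) / 4 := by
    have : 0 ≤ 4 + 2 * q - x ^ 2 := by linarith
    positivity
  have h1 := mul_le_mul_of_nonneg_right hf hc
  have h2 : 0 < x * eL r x * (x * (4 + 2 * q - x ^ 2) / 4) +
      eL r x * (1 + q + r * x - 3 * x ^ 2 / 2) := by
    have e : x * eL r x * (x * (4 + 2 * q - x ^ 2) / 4) +
      eL r x * (1 + q + r * x - 3 * x ^ 2 / 2) =
        eL r x * (x ^ 2 * (4 + 2 * q - x ^ 2) / 4 + (1 + q + r * x - 3 * x ^ 2 / 2)) := by ring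
    rw [e]
    refine mul_pos he ?_
    have h3 : x ^ 2 ≤ r * x := by nlinarith
    nlinarith [sq_nonneg x, mul_nonneg (sq_nonneg x) hq,
      mul_nonneg (sq_nonneg x) (by linarith : (0:ℝ) ≤ 9 / 4 - x ^ 2)]
  rw [nE_eq]
  linarith

/-- the positive remainder -/
noncomputable def gE (r q x : ℝ) : ℝ := fL r x * (x ^ 3 / 2) +
  eL r x * ((1 + q) * (1 - r * x + x ^ 2) + x ^ 2 * (2 - r ^ 2) + x ^ 3 * (2 * r - x))

theorem mE_eq (r q x : ℝ) : mE r q x = x ^ 2 / 2 * nE r q x + gE r q x := by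
  unfold gE mE
  rw [nE_eq]
  ring

theorem gE_pos {r q : ℝ} (hr2 : r ^ 2 ≤ 9 / 4) (hq : 0 ≤ q) {x : ℝ}
    (hx : 0 < x) (hxr : x ≤ 2 * r) : 0 < gE r q x := by
  have he := eL_pos r x
  have hf := fL_nonneg hxr
  have h1 : 0 < (1 + q) * (1 - r * x + x ^ 2) + x ^ 2 * (2 - r ^ 2) := by
    have e : (1 + q) * (1 - r * x + x ^ 2) + x ^ 2 * (2 - r ^ 2) =
      (1 + q) * (1 - r * x / 2) ^ 2 + x ^ 2 * (3 + q - r ^ 2 - (1 + q) * r ^ 2 / 4) := by ring
    rw [e]
    have h2 : 0 < 3 + q - r ^ 2 - (1 + q) * r ^ 2 / 4 := by nlinarith [sq_nonneg r]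
    have h3 : 0 < x ^ 2 * (3 + q - r ^ 2 - (1 + q) * r ^ 2 / 4) := mul_pos (pow_pos hx 2) h2
    have h4 : 0 ≤ (1 + q) * (1 - r * x / 2) ^ 2 := mul_nonneg (by linarith) (sq_nonneg _)
    linarith
  have h2 : 0 ≤ x ^ 3 * (2 * r - x) := mul_nonneg (by positivity) (by linarith)
  have h3 : 0 ≤ fL r x * (x ^ 3 / 2) := mul_nonneg hf (by positivity)
  have h4 := mul_pos he (add_pos_of_pos_of_nonneg h1 h2)
  unfold gE
  linarith

theorem weighted_deriv (r q x : ℝ) (hx : 0 < x) :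
    HasDerivAt (fun x => Real.exp (x ^ 2 / 4) * (nE r q x / x))
      (-(Real.exp (x ^ 2 / 4) * (gE r q x / x ^ 2))) x := by
  have h1 : HasDerivAt (fun x : ℝ => Real.exp (x ^ 2 / 4)) (Real.exp (x ^ 2 / 4) * (x / 2)) x := by
    have : HasDerivAt (fun x : ℝ => x ^ 2 / 4) (x / 2) x := by
      refine ((hasDerivAt_pow 2 x).div_const 4).congr_deriv ?_
      norm_num
      ring
    exact this.exp
  refine (h1.fun_mul (ratio_deriv r q x hx)).congr_deriv ?_
  rw [mE_eq]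
  field_simp
  ring

/-- **TB4** -/
theorem pShape : Pool.Agent.H770.GS.S_shape := by
  intro r q _ hr2 hq _
  refine ⟨fun x hx => ratio_deriv r q x hx, fun x hx hxr => nE_pos hr2 hq hx hxr, ?_, ?_⟩
  · intro x hx hxr hn
    rw [mE_eq]
    exact add_pos_of_nonneg_of_pos (mul_nonneg (by positivity) hn) (gE_pos hr2 hq hx hxr)
  · intro x₀ x hx₀ hx₀r hxx hxr
    have hanti : AntitoneOn (fun x => Real.exp (x ^ 2 / 4) * (nE r q x / x)) (Icc x₀ (2 * r)) := by
      refine antitoneOn_of_deriv_nonpos (convex_Icc _ _) ?_ ?_ ?_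
      · exact fun y hy => (weighted_deriv r q y (hx₀.trans_le hy.1)).continuousAt.continuousWithinAt
      · intro y hy
        rw [interior_Icc] at hy
        exact (weighted_deriv r q y (hx₀.trans hy.1)).differentiableAt.differentiableWithinAt
      · intro y hy
        rw [interior_Icc] at hy
        have hy0 : 0 < y := hx₀.trans hy.1
        rw [(weighted_deriv r q y hy0).deriv, neg_nonpos]
        exact mul_nonneg (Real.exp_pos _).le
          (div_nonneg (gE_pos hr2 hq hy0 hy.2.le).le (sq_nonneg _))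
    have h1 := hanti ⟨le_rfl, hxx.trans hxr⟩ ⟨hxx, hxr⟩ hxx
    simp only at h1
    have hν : 0 < nE r q x₀ / x₀ := div_pos (nE_pos hr2 hq hx₀.le hx₀r) hx₀
    have h2 : Real.exp (x₀ ^ 2 / 4) * (nE r q x₀ / x₀) ≤
        Real.exp (x ^ 2 / 4) * (nE r q x₀ / x₀) := by
      refine mul_le_mul_of_nonneg_right (Real.exp_le_exp.2 ?_) hν.le
      have := pow_le_pow_left₀ hx₀.le hxx 2
      linarith
    exact le_of_mul_le_mul_left (h1.trans h2) (Real.exp_pos _)

end Pool.Agent.H32.TBshape
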