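import Pool.Agent.H770.GS.TF

set_option autoImplicit false

open MeasureTheory Set intervalIntegral Filter Topology

/-!
# Project TF (helper770): `S_TF2`
-/

namespace Pool.Agent.H32.TF2

open Pool.Agent.H770.GS

theorem mono_aux {f g f' g' : ℝ → ℝ} (hf : ∀ x, HasDerivAt f (f' x) x)
    (hg : ∀ x, HasDerivAt g (g' x) x) (h0 : f 0 ≤ g 0) (h : ∀ x, 0 ≤ x → f' x ≤ g' x)
    (x : ℝ) (hx : 0 ≤ x) : f x ≤ g x := by
  have hmono : MonotoneOn (fun x => g x - f x) (Ici 0) := by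
    apply monotoneOn_of_deriv_nonneg (convex_Ici 0)
    · exact fun x _ => ((hg x).sub (hf x)).continuousAt.continuousWithinAt
    · exact fun x _ => ((hg x).sub (hf x)).differentiableAt.differentiableWithinAt
    · intro x hx
      rw [interior_Ici] at hx
      have h1 : deriv (fun x => g x - f x) x = g' x - f' x := ((hg x).sub (hf x)).deriv
      rw [h1]
      linarith [h x (le_of_lt hx)]
  have h1 := hmono (self_mem_Ici) hx hx
  simp only at h1
  linarith

theorem mcos (x : ℝ) : HasDerivAt (fun x => Real.cos x) (-Real.sin x) x := Real.hasDerivAt_cos x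

theorem msin (x : ℝ) : HasDerivAt (fun x => Real.sin x) (Real.cos x) x := Real.hasDerivAt_sin x

theorem pw (n : ℕ) (c x : ℝ) : HasDerivAt (fun x : ℝ => c * x ^ (n + 1)) (c * ((n + 1) * x ^ n)) x := by
  have h := (hasDerivAt_pow (n + 1) x).const_mul c
  refine h.congr_deriv ?_
  simp

theorem C4 (x : ℝ) (hx : 0 ≤ x) : Real.cos x ≤ 1 + (-1 / 2) * x ^ 2 + 1 / 24 * x ^ 4 := by
  refine mono_aux (f := fun x => Real.cos x) (g := fun x => 1 + (-1 / 2) * x ^ 2 + 1 / 24 * x ^ 4)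
    (g' := fun x => -x + x ^ 3 / 6) mcos (fun x => ?_) (by norm_num) ?_ x hx
  · refine (((pw 1 (-1 / 2) x).const_add 1).add (pw 3 (1 / 24) x)).congr_deriv ?_
    push_cast
    ring
  · intro x hx
    have := Real.sin_ge_sub_cube hx
    linarith

theorem S5 (x : ℝ) (hx : 0 ≤ x) : Real.sin x ≤ 1 * x ^ 1 + (-1 / 6) * x ^ 3 + 1 / 120 * x ^ 5 := by
  refine mono_aux (f := fun x => Real.sin x)
    (g := fun x => 1 * x ^ 1 + (-1 / 6) * x ^ 3 + 1 / 120 * x ^ 5)
    (g' := fun x => 1 + (-1 / 2) * x ^ 2 + 1 / 24 * x ^ 4) msin (fun x => ?_) (by norm_num) ?_ x hx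
  · refine (((pw 0 1 x).add (pw 2 (-1 / 6) x)).add (pw 4 (1 / 120) x)).congr_deriv ?_
    push_cast
    ring
  · intro x hx
    exact C4 x hx

theorem C6 (x : ℝ) (hx : 0 ≤ x) :
    1 + (-1 / 2) * x ^ 2 + 1 / 24 * x ^ 4 + (-1 / 720) * x ^ 6 ≤ Real.cos x := by
  refine mono_aux (f := fun x => 1 + (-1 / 2) * x ^ 2 + 1 / 24 * x ^ 4 + (-1 / 720) * x ^ 6)
    (g := fun x => Real.cos x) (f' := fun x => -(1 * x ^ 1 + (-1 / 6) * x ^ 3 + 1 / 120 * x ^ 5))
    (fun x => ?_) mcos (by norm_num) ?_ x hx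
  · refine ((((pw 1 (-1 / 2) x).const_add 1).add (pw 3 (1 / 24) x)).add
      (pw 5 (-1 / 720) x)).congr_deriv ?_
    push_cast
    ring
  · intro x hx
    exact neg_le_neg (S5 x hx)

theorem S7 (x : ℝ) (hx : 0 ≤ x) :
    1 * x ^ 1 + (-1 / 6) * x ^ 3 + 1 / 120 * x ^ 5 + (-1 / 5040) * x ^ 7 ≤ Real.sin x := by
  refine mono_aux (f := fun x => 1 * x ^ 1 + (-1 / 6) * x ^ 3 + 1 / 120 * x ^ 5 + (-1 / 5040) * x ^ 7)
    (g := fun x => Real.sin x)
    (f' := fun x => 1 + (-1 / 2) * x ^ 2 + 1 / 24 * x ^ 4 + (-1 / 720) * x ^ 6)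
    (fun x => ?_) msin (by norm_num) ?_ x hx
  · refine ((((pw 0 1 x).add (pw 2 (-1 / 6) x)).add (pw 4 (1 / 120) x)).add
      (pw 6 (-1 / 5040) x)).congr_deriv ?_
    push_cast
    ring
  · intro x hx
    exact C6 x hx

theorem C8 (x : ℝ) (hx : 0 ≤ x) : Real.cos x ≤
    1 + (-1 / 2) * x ^ 2 + 1 / 24 * x ^ 4 + (-1 / 720) * x ^ 6 + 1 / 40320 * x ^ 8 := by
  refine mono_aux (f := fun x => Real.cos x)
    (g := fun x => 1 + (-1 / 2) * x ^ 2 + 1 / 24 * x ^ 4 + (-1 / 720) * x ^ 6 + 1 / 40320 * x ^ 8)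
    (g' := fun x => -(1 * x ^ 1 + (-1 / 6) * x ^ 3 + 1 / 120 * x ^ 5 + (-1 / 5040) * x ^ 7))
    mcos (fun x => ?_) (by norm_num) ?_ x hx
  · refine (((((pw 1 (-1 / 2) x).const_add 1).add (pw 3 (1 / 24) x)).add
      (pw 5 (-1 / 720) x)).add (pw 7 (1 / 40320) x)).congr_deriv ?_
    push_cast
    ring
  · intro x hx
    exact neg_le_neg (S7 x hx)

theorem S9 (x : ℝ) (hx : 0 ≤ x) : Real.sin x ≤
    1 * x ^ 1 + (-1 / 6) * x ^ 3 + 1 / 120 * x ^ 5 + (-1 / 5040) * x ^ 7 + 1 / 362880 * x ^ 9 := by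
  refine mono_aux (f := fun x => Real.sin x)
    (g := fun x => 1 * x ^ 1 + (-1 / 6) * x ^ 3 + 1 / 120 * x ^ 5 + (-1 / 5040) * x ^ 7 +
      1 / 362880 * x ^ 9)
    (g' := fun x => 1 + (-1 / 2) * x ^ 2 + 1 / 24 * x ^ 4 + (-1 / 720) * x ^ 6 + 1 / 40320 * x ^ 8)
    msin (fun x => ?_) (by norm_num) ?_ x hx
  · refine (((((pw 0 1 x).add (pw 2 (-1 / 6) x)).add (pw 4 (1 / 120) x)).add
      (pw 6 (-1 / 5040) x)).add (pw 8 (1 / 362880) x)).congr_deriv ?_
    push_cast
    ring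
  · intro x hx
    exact C8 x hx

theorem T11 (x : ℝ) (hx : 0 ≤ x) : Real.sin x - x * Real.cos x ≤
    1 / 3 * x ^ 3 + (-1 / 30) * x ^ 5 + 1 / 840 * x ^ 7 + (-1 / 45360) * x ^ 9 +
      1 / 3991680 * x ^ 11 := by
  refine mono_aux (f := fun x => Real.sin x - x * Real.cos x)
    (g := fun x => 1 / 3 * x ^ 3 + (-1 / 30) * x ^ 5 + 1 / 840 * x ^ 7 + (-1 / 45360) * x ^ 9 +
      1 / 3991680 * x ^ 11)
    (f' := fun x => x * Real.sin x)
    (g' := fun x => x * (1 * x ^ 1 + (-1 / 6) * x ^ 3 + 1 / 120 * x ^ 5 + (-1 / 5040) * x ^ 7 +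
      1 / 362880 * x ^ 9)) (fun x => ?_) (fun x => ?_) (by norm_num) ?_ x hx
  · refine ((msin x).sub ((hasDerivAt_id x).mul (mcos x))).congr_deriv ?_
    simp
  · refine (((((pw 2 (1 / 3) x).add (pw 4 (-1 / 30) x)).add (pw 6 (1 / 840) x)).add
      (pw 8 (-1 / 45360) x)).add (pw 10 (1 / 3991680) x)).congr_deriv ?_
    push_cast
    ring
  · intro x hx
    exact mul_le_mul_of_nonneg_left (S9 x hx) hx

theorem L107 (y : ℝ) (hy : 0 ≤ y) : |Real.sin y - y * Real.cos y| ≤ 1.07 * y := by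
  rcases le_or_gt y 2.63 with h | h
  · rw [abs_le]
    constructor
    · have h1 : 0 ≤ Real.sin y := Real.sin_nonneg_of_nonneg_of_le_pi hy
        (h.trans (by have := Real.pi_gt_d2; linarith))
      nlinarith [Real.cos_le_one y]
    · refine (T11 y hy).trans ?_
      have h2 : y ^ 2 ≤ 6.9169 := by nlinarith
      have key : 1 / 3 * y ^ 2 + (-1 / 30) * (y ^ 2) ^ 2 + 1 / 840 * (y ^ 2) ^ 3 +
          (-1 / 45360) * (y ^ 2) ^ 4 + 1 / 3991680 * (y ^ 2) ^ 5 ≤ 1.07 := by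
        obtain ⟨w, hw⟩ : ∃ w : ℝ, w = 6.9169 - y ^ 2 := ⟨_, rfl⟩
        have hw0 : 0 ≤ w := by linarith
        have e : y ^ 2 = 6.9169 - w := by linarith
        rw [e]
        nlinarith [pow_nonneg hw0 2, pow_nonneg hw0 3, pow_nonneg hw0 4, pow_nonneg hw0 5]
      have e : 1 / 3 * y ^ 3 + (-1 / 30) * y ^ 5 + 1 / 840 * y ^ 7 + (-1 / 45360) * y ^ 9 +
          1 / 3991680 * y ^ 11 = (1 / 3 * y ^ 2 + (-1 / 30) * (y ^ 2) ^ 2 + 1 / 840 * (y ^ 2) ^ 3 +
          (-1 / 45360) * (y ^ 2) ^ 4 + 1 / 3991680 * (y ^ 2) ^ 5) * y := by ring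
      rw [e]
      exact mul_le_mul_of_nonneg_right key hy
  · have h1 := Real.sin_sq_add_cos_sq y
    have h2 : (Real.sin y - y * Real.cos y) ^ 2 + (Real.cos y + y * Real.sin y) ^ 2 = 1 + y ^ 2 := by
      have e : (Real.sin y - y * Real.cos y) ^ 2 + (Real.cos y + y * Real.sin y) ^ 2 =
          (Real.sin y ^ 2 + Real.cos y ^ 2) * (1 + y ^ 2) := by ring
      rw [e, h1, one_mul]
    have h3 : (Real.sin y - y * Real.cos y) ^ 2 ≤ (1.07 * y) ^ 2 := by
      nlinarith [sq_nonneg (Real.cos y + y * Real.sin y)]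
    exact abs_le_of_sq_le_sq h3 (by positivity)

theorem P_deriv (x u : ℝ) :
    HasDerivAt (fun u : ℝ => u * Real.sinc (u * x)) (Real.cos (x * u)) u := by
  by_cases hx : x = 0
  · subst hx
    simp only [mul_zero, Real.sinc_zero, zero_mul, Real.cos_zero, mul_one]
    exact hasDerivAt_id u
  · have e : (fun u : ℝ => u * Real.sinc (u * x)) = fun u => Real.sin (u * x) / x := by
      funext u
      by_cases hu : u = 0
      · simp [hu]
      · rw [Real.sinc_of_ne_zero (mul_ne_zero hu hx)]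
        field_simp
    rw [e]
    have h := ((Real.hasDerivAt_sin (u * x)).comp u ((hasDerivAt_id u).mul_const x)).div_const x
    refine h.congr_deriv ?_
    simp only [one_mul]
    rw [mul_comm x u]
    field_simp

theorem E_deriv (ε u : ℝ) :
    HasDerivAt (fun u : ℝ => Real.exp (-(ε * u ^ 2))) (-(2 * ε * u * Real.exp (-(ε * u ^ 2)))) u := by
  have h := (Real.hasDerivAt_exp (-(ε * u ^ 2))).comp u (((hasDerivAt_pow 2 u).const_mul ε).neg)
  refine h.congr_deriv ?_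
  push_cast
  ring

theorem contE (ε : ℝ) : Continuous fun u : ℝ => Real.exp (-(ε * u ^ 2)) := by fun_prop

theorem contS (x : ℝ) : Continuous fun u : ℝ => Real.sinc (u * x) :=
  Real.continuous_sinc.comp (continuous_id.mul continuous_const)

theorem zt_pos (ε : ℝ) : 0 < zt ε := by
  rw [zt]
  exact intervalIntegral_pos_of_pos ((contE ε).intervalIntegrable _ _) (fun x => Real.exp_pos _)
    zero_lt_one

/-- integration by parts, (a) -/
theorem Ia (ε x : ℝ) : ∫ u in (0:ℝ)..1, Real.exp (-(ε * u ^ 2)) * Real.cos (x * u) =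
    Real.exp (-ε) * Real.sinc x + 2 * ε * ck ε x := by
  have h1 : ∀ u ∈ uIcc (0:ℝ) 1, HasDerivAt
      (fun u : ℝ => Real.exp (-(ε * u ^ 2)) * (u * Real.sinc (u * x)))
      (Real.exp (-(ε * u ^ 2)) * Real.cos (x * u) -
        2 * ε * (u ^ 2 * Real.exp (-(ε * u ^ 2)) * Real.sinc (u * x))) u := by
    intro u _
    refine ((E_deriv ε u).mul (P_deriv x u)).congr_deriv ?_
    ring
  have c1 : Continuous fun u : ℝ => Real.exp (-(ε * u ^ 2)) * Real.cos (x * u) := by fun_prop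
  have c2 : Continuous fun u : ℝ => u ^ 2 * Real.exp (-(ε * u ^ 2)) * Real.sinc (u * x) :=
    ((continuous_pow 2).mul (contE ε)).mul (contS x)
  have h2 := integral_eq_sub_of_hasDerivAt h1
    ((c1.intervalIntegrable 0 1).sub ((c2.const_mul (2 * ε)).intervalIntegrable 0 1))
  rw [intervalIntegral.integral_sub (c1.intervalIntegrable 0 1)
    ((c2.const_mul (2 * ε)).intervalIntegrable 0 1), intervalIntegral.integral_const_mul] at h2
  rw [ck]
  simp only [one_pow, mul_one, one_mul, zero_mul, mul_zero, sub_zero] at h2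
  linarith

theorem zt_mul_cf (ε x : ℝ) :
    zt ε * cf ε x = ∫ u in (0:ℝ)..1, Real.exp (-(ε * u ^ 2)) * Real.cos (x * u) := by
  rw [cf, mul_div_cancel₀ _ (zt_pos ε).ne']

theorem cf_zero (ε : ℝ) : cf ε 0 = 1 := by
  have h := zt_mul_cf ε 0
  simp only [zero_mul, Real.cos_zero, mul_one] at h
  change zt ε * cf ε 0 = zt ε at h
  have := zt_pos ε
  exact mul_left_cancel₀ this.ne' (by rw [h, mul_one])

theorem J_eq (ε : ℝ) : ∫ u in (0:ℝ)..1, 2 * ε * u * Real.exp (-(ε * u ^ 2)) = 1 - Real.exp (-ε) := by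
  have h1 : ∀ u ∈ uIcc (0:ℝ) 1, HasDerivAt (fun u : ℝ => -Real.exp (-(ε * u ^ 2)))
      (2 * ε * u * Real.exp (-(ε * u ^ 2))) u := by
    intro u _
    refine (E_deriv ε u).neg.congr_deriv ?_
    ring
  have c : Continuous fun u : ℝ => 2 * ε * u * Real.exp (-(ε * u ^ 2)) := by fun_prop
  have h2 := integral_eq_sub_of_hasDerivAt h1 (c.intervalIntegrable 0 1)
  rw [h2]
  simp
  ring

theorem b_bound (ε : ℝ) (hε : 0 < ε) (x : ℝ) (hx : 0 < x) : |cf ε x| ≤ 1 / (zt ε * x) := by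
  have hz := zt_pos ε
  have h1 := zt_mul_cf ε x
  rw [Ia] at h1
  have h2 : 2 * ε * ck ε x * x =
      ∫ u in (0:ℝ)..1, 2 * ε * u * Real.exp (-(ε * u ^ 2)) * Real.sin (u * x) := by
    rw [ck, ← intervalIntegral.integral_const_mul, ← intervalIntegral.integral_mul_const]
    congr 1
    funext u
    by_cases hu : u = 0
    · simp [hu]
    · rw [Real.sinc_of_ne_zero (mul_ne_zero hu hx.ne')]
      field_simp
  have h3 : |∫ u in (0:ℝ)..1, 2 * ε * u * Real.exp (-(ε * u ^ 2)) * Real.sin (u * x)| ≤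
      1 - Real.exp (-ε) := by
    rw [← J_eq ε, ← Real.norm_eq_abs]
    have c : Continuous fun u : ℝ => 2 * ε * u * Real.exp (-(ε * u ^ 2)) := by fun_prop
    refine intervalIntegral.norm_integral_le_of_norm_le zero_le_one ?_ (c.intervalIntegrable 0 1)
    refine Filter.Eventually.of_forall fun u hu => ?_
    rw [norm_mul]
    have h4 : 0 ≤ 2 * ε * u * Real.exp (-(ε * u ^ 2)) := by
      have := hu.1
      positivity
    rw [Real.norm_of_nonneg h4]
    exact mul_le_of_le_one_right h4 (Real.abs_sin_le_one _)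
  have h5 : zt ε * x * |cf ε x| ≤ 1 := by
    have h6 : zt ε * x * |cf ε x| = |zt ε * cf ε x * x| := by
      rw [abs_mul, abs_mul, abs_of_pos hz, abs_of_pos hx]
      ring
    rw [h6, h1, add_mul, h2]
    have h7 : Real.exp (-ε) * Real.sinc x * x = Real.exp (-ε) * Real.sin x := by
      rw [Real.sinc_of_ne_zero hx.ne']
      field_simp
    rw [h7]
    refine (abs_add_le _ _).trans ?_
    have h8 : |Real.exp (-ε) * Real.sin x| ≤ Real.exp (-ε) := by
      rw [abs_mul, abs_of_pos (Real.exp_pos _)]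
      exact mul_le_of_le_one_right (Real.exp_pos _).le (Real.abs_sin_le_one _)
    linarith
  rw [le_div_iff₀ (by positivity)]
  linarith

theorem cf_le_one (ε x : ℝ) : |cf ε x| ≤ 1 := by
  have hz := zt_pos ε
  have h3 : |∫ u in (0:ℝ)..1, Real.exp (-(ε * u ^ 2)) * Real.cos (x * u)| ≤ zt ε := by
    rw [zt, ← Real.norm_eq_abs]
    refine intervalIntegral.norm_integral_le_of_norm_le zero_le_one ?_
      ((contE ε).intervalIntegrable 0 1)
    refine Filter.Eventually.of_forall fun u _ => ?_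
    rw [norm_mul, Real.norm_of_nonneg (Real.exp_pos _).le]
    exact mul_le_of_le_one_right (Real.exp_pos _).le (Real.abs_cos_le_one _)
  rw [cf, abs_div, abs_of_pos hz, div_le_one hz]
  exact h3

theorem zt_eq (ε : ℝ) : zt ε = Real.exp (-ε) + 2 * ε * ck ε 0 := by
  have h := Ia ε 0
  rw [Real.sinc_zero, mul_one] at h
  rw [← h, ← zt_mul_cf, cf_zero, mul_one]

theorem c_bound (ε : ℝ) (hε : 0 < ε) (x : ℝ) (hx : 0 < x) :
    |ck ε x| ≤ 1.07 * zt ε / x ^ 2 := by
  set Q : ℝ → ℝ := fun u => (Real.sin (u * x) - u * x * Real.cos (u * x)) / x ^ 3 with hQ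
  have hQd : ∀ u, HasDerivAt Q (u ^ 2 * Real.sinc (u * x)) u := by
    intro u
    have h0 : HasDerivAt (fun u : ℝ => u * x) x u := by
      refine ((hasDerivAt_id u).mul_const x).congr_deriv ?_
      simp
    have h := (((Real.hasDerivAt_sin (u * x)).comp u h0).sub
      (h0.mul ((Real.hasDerivAt_cos (u * x)).comp u h0))).div_const (x ^ 3)
    refine h.congr_deriv ?_
    by_cases hu : u = 0
    · simp [hu]
    · rw [Real.sinc_of_ne_zero (mul_ne_zero hu hx.ne')]
      simp only [Function.comp]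
      field_simp
      ring
  have hQc : Continuous Q := by
    rw [hQ]
    fun_prop
  have h1 : ∀ u ∈ uIcc (0:ℝ) 1, HasDerivAt
      (fun u : ℝ => Real.exp (-(ε * u ^ 2)) * Q u)
      (u ^ 2 * Real.exp (-(ε * u ^ 2)) * Real.sinc (u * x) -
        2 * ε * u * Real.exp (-(ε * u ^ 2)) * Q u) u := by
    intro u _
    refine ((E_deriv ε u).mul (hQd u)).congr_deriv ?_
    ring
  have c1 : Continuous fun u : ℝ => u ^ 2 * Real.exp (-(ε * u ^ 2)) * Real.sinc (u * x) :=
    ((continuous_pow 2).mul (contE ε)).mul (contS x)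
  have c2 : Continuous fun u : ℝ => 2 * ε * u * Real.exp (-(ε * u ^ 2)) * Q u := by fun_prop
  have h2 := integral_eq_sub_of_hasDerivAt h1
    ((c1.intervalIntegrable 0 1).sub (c2.intervalIntegrable 0 1))
  rw [intervalIntegral.integral_sub (c1.intervalIntegrable 0 1) (c2.intervalIntegrable 0 1)] at h2
  change ck ε x - _ = _ at h2
  have hQb : ∀ u, 0 ≤ u → |Q u| ≤ 1.07 * u / x ^ 2 := by
    intro u hu
    have h3 := L107 (u * x) (by positivity)
    rw [hQ]
    simp only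
    rw [abs_div, abs_of_pos (by positivity : (0:ℝ) < x ^ 3), div_le_div_iff₀ (by positivity)
      (by positivity)]
    have h4 : |Real.sin (u * x) - u * x * Real.cos (u * x)| * x ^ 2 ≤
        1.07 * (u * x) * x ^ 2 := mul_le_mul_of_nonneg_right h3 (by positivity)
    linarith [h4]
  have h5 : |∫ u in (0:ℝ)..1, 2 * ε * u * Real.exp (-(ε * u ^ 2)) * Q u| ≤
      1.07 / x ^ 2 * (2 * ε * ck ε 0) := by
    have e : 1.07 / x ^ 2 * (2 * ε * ck ε 0) =
        ∫ u in (0:ℝ)..1, 1.07 / x ^ 2 * (2 * ε) * (u ^ 2 * Real.exp (-(ε * u ^ 2))) := by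
      rw [ck, intervalIntegral.integral_const_mul]
      simp only [mul_zero, Real.sinc_zero, mul_one]
      ring
    rw [e, ← Real.norm_eq_abs]
    have c3 : Continuous fun u : ℝ => 1.07 / x ^ 2 * (2 * ε) * (u ^ 2 * Real.exp (-(ε * u ^ 2))) := by
      fun_prop
    refine intervalIntegral.norm_integral_le_of_norm_le zero_le_one ?_ (c3.intervalIntegrable 0 1)
    refine Filter.Eventually.of_forall fun u hu => ?_
    have hu0 : 0 ≤ u := hu.1.le
    have h4 : 0 ≤ 2 * ε * u * Real.exp (-(ε * u ^ 2)) := by positivity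
    rw [norm_mul, Real.norm_of_nonneg h4, Real.norm_eq_abs]
    calc 2 * ε * u * Real.exp (-(ε * u ^ 2)) * |Q u| ≤
        2 * ε * u * Real.exp (-(ε * u ^ 2)) * (1.07 * u / x ^ 2) :=
          mul_le_mul_of_nonneg_left (hQb u hu0) h4
      _ = _ := by ring
  have h6 : |Real.exp (-ε) * Q 1| ≤ 1.07 / x ^ 2 * Real.exp (-ε) := by
    rw [abs_mul, abs_of_pos (Real.exp_pos _)]
    have := mul_le_mul_of_nonneg_left (hQb 1 zero_le_one) (Real.exp_pos (-ε)).le
    calc _ ≤ _ := this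
      _ = _ := by ring
  have h7 : ck ε x = Real.exp (-ε) * Q 1 +
      ∫ u in (0:ℝ)..1, 2 * ε * u * Real.exp (-(ε * u ^ 2)) * Q u := by
    have h8 : Q 0 = 0 := by simp [hQ]
    simp only [one_pow, mul_one, h8, mul_zero, sub_zero] at h2
    linarith
  rw [h7]
  refine (abs_add_le _ _).trans ?_
  calc _ ≤ 1.07 / x ^ 2 * Real.exp (-ε) + 1.07 / x ^ 2 * (2 * ε * ck ε 0) := add_le_add h6 h5
    _ = 1.07 * zt ε / x ^ 2 := by
      rw [zt_eq]
      ring

theorem d_deriv (ε : ℝ) (hε : 0 < ε) (x : ℝ) :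
    HasDerivAt (cf ε) (-(x / zt ε * ck ε x)) x := by
  have h := intervalIntegral.hasDerivAt_integral_of_dominated_loc_of_deriv_le (𝕜 := ℝ)
    (μ := volume) (a := 0) (b := 1) (F := fun x u => Real.exp (-(ε * u ^ 2)) * Real.cos (x * u))
    (F' := fun x u => Real.exp (-(ε * u ^ 2)) * (-(u * Real.sin (x * u)))) (x₀ := x) (s := univ)
    (bound := fun _ => 1) univ_mem ?_ ?_ ?_ ?_ ?_ ?_
  · have h2 := h.2.div_const (zt ε)
    refine h2.congr_deriv ?_
    have h3 : ∫ u in (0:ℝ)..1, Real.exp (-(ε * u ^ 2)) * (-(u * Real.sin (x * u))) =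
        -(x * ck ε x) := by
      rw [ck, ← intervalIntegral.integral_const_mul, ← intervalIntegral.integral_neg]
      congr 1
      funext u
      by_cases hu : u = 0
      · simp [hu]
      · by_cases hx : x = 0
        · simp [hx]
        · rw [Real.sinc_of_ne_zero (mul_ne_zero hu hx), mul_comm x u]
          field_simp
    rw [h3]
    ring
  · refine Filter.Eventually.of_forall fun y => ?_
    exact (by fun_prop : Continuous fun u : ℝ =>
      Real.exp (-(ε * u ^ 2)) * Real.cos (y * u)).aestronglyMeasurable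
  · exact (by fun_prop : Continuous fun u : ℝ =>
      Real.exp (-(ε * u ^ 2)) * Real.cos (x * u)).intervalIntegrable _ _
  · exact (by fun_prop : Continuous fun u : ℝ =>
      Real.exp (-(ε * u ^ 2)) * (-(u * Real.sin (x * u)))).aestronglyMeasurable
  · refine Filter.Eventually.of_forall fun u hu y _ => ?_
    rw [uIoc_of_le zero_le_one] at hu
    rw [norm_mul, Real.norm_of_nonneg (Real.exp_pos _).le, norm_neg, norm_mul,
      Real.norm_of_nonneg hu.1.le]
    have h1 : Real.exp (-(ε * u ^ 2)) ≤ 1 := Real.exp_le_one_iff.mpr (by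
      have : 0 ≤ ε * u ^ 2 := by positivity
      linarith)
    have h2 : u * ‖Real.sin (y * u)‖ ≤ 1 :=
      mul_le_one₀ hu.2 (norm_nonneg _) (Real.abs_sin_le_one _)
    exact mul_le_one₀ h1 (mul_nonneg hu.1.le (norm_nonneg _)) h2
  · exact intervalIntegrable_const
  · refine Filter.Eventually.of_forall fun u _ y _ => ?_
    have h0 : HasDerivAt (fun y : ℝ => y * u) u y := by
      refine ((hasDerivAt_id y).mul_const u).congr_deriv ?_
      simp
    refine (((Real.hasDerivAt_cos (y * u)).comp y h0).const_mul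
      (Real.exp (-(ε * u ^ 2)))).congr_deriv ?_
    ring

theorem tf2 : S_TF2 := by
  intro ε hε
  have hz := zt_pos ε
  have ha : ∀ x, zt ε * cf ε x = Real.exp (-ε) * Real.sinc x + 2 * ε * ck ε x := fun x => by
    rw [zt_mul_cf, Ia]
  refine ⟨hz, ha, b_bound ε hε, cf_le_one ε, c_bound ε hε, d_deriv ε hε, ?_⟩
  intro b x
  have e : ∀ y, cf ε y = (Real.exp (-ε) * Real.sinc y + 2 * ε * ck ε y) / zt ε := fun y => by
    rw [← ha y, mul_div_cancel_left₀ _ hz.ne']
  rw [e x, e (b * x)]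
  field_simp
  ring

end Pool.Agent.H32.TF2

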